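import Mathlib
import Pool.Agent.MP1e71f9co.EvenDimTable

/-!
# The McMullen problem in even dimensions: `ν(d) ≤ 5d/2 - 1`

For every even `d ≥ 6` and every `n ≥ 5d/2` there are `n` points in general position in `ℝ^d` which
no permissible projective transformation maps onto the vertex set of a convex polytope.

Outline.  Homogeneous coordinates turn the question into one about `m = 5d/2` vectors in
`ℝ^(d+1)`: we need that every sign vector, or one obtained from it by changing one sign, is not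
realised by any nonzero linear functional, even weakly.  Such vectors are constructed in
`Pool.Agent.MP1e71f9co.EvenDimTable` (`exists_vectors`).  Here a small perturbation puts them in
general position (`exists_gp`), the resulting points cannot be mapped to convex position
(`not_mapsToVertices`), and further points can be added freely (`exists_extension`).
-/

namespace Pool.Agent.Results.MP_1e71f9_co.EvenDimensions

/-- A finite set `S ⊆ ℝ^d` is in general position: no `d + 1` of its points lie on a common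
affine hyperplane `{x | ⟨u, x⟩ = t}`, `u ≠ 0`. -/
def GeneralPosition {d : ℕ} (S : Finset (Fin d → ℝ)) : Prop :=
  ∀ F ⊆ S, F.card = d + 1 →
    ¬ ∃ (u : Fin d → ℝ) (t : ℝ), u ≠ 0 ∧ ∀ x ∈ F, u ⬝ᵥ x = t

/-- The projective map `x ↦ (A x + b) / (⟨c, x⟩ + δ)`. -/
noncomputable def projMap {d : ℕ} (A : Matrix (Fin d) (Fin d) ℝ) (b c : Fin d → ℝ) (δ : ℝ)
    (x : Fin d → ℝ) : Fin d → ℝ :=
  (c ⬝ᵥ x + δ)⁻¹ • (A.mulVec x + b)

/-- The `(d+1) × (d+1)` matrix `(A, b; cᵀ, δ)` of the projective map. -/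
def projMatrix {d : ℕ} (A : Matrix (Fin d) (Fin d) ℝ) (b c : Fin d → ℝ) (δ : ℝ) :
    Matrix (Fin d ⊕ Unit) (Fin d ⊕ Unit) ℝ :=
  Matrix.fromBlocks A (Matrix.of fun i _ => b i) (Matrix.of fun _ j => c j)
    (Matrix.of fun _ _ => δ)

/-- `S` can be mapped onto the vertex set of a convex polytope by a projective transformation
(invertible matrix) which is permissible for `S` (the denominator vanishes at no point of `S`):
every point of the image `T(S)` is an extreme point of `conv T(S)`. -/
def MapsToVertices {d : ℕ} (S : Finset (Fin d → ℝ)) : Prop :=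
  ∃ (A : Matrix (Fin d) (Fin d) ℝ) (b c : Fin d → ℝ) (δ : ℝ),
    (projMatrix A b c δ).det ≠ 0 ∧ (∀ x ∈ S, c ⬝ᵥ x + δ ≠ 0) ∧
    ∀ x ∈ S, projMap A b c δ x ∈
      (convexHull ℝ (projMap A b c δ '' (S : Set (Fin d → ℝ)))).extremePoints ℝ


open Pool.Agent.MP1e71f9co.EvenDimTable

/-! ## Openness and general position -/

open Filter Topology

/-- no nonzero `u` realises the sign vector `σ` weakly on the vectors `w` -/
def Dead {N m : ℕ} (w : Fin m → Fin N → ℝ) (σ : Fin m → Bool) : Prop :=
  ∀ u : Fin N → ℝ, (∀ j, 0 ≤ sgn (σ j) * (u ⬝ᵥ w j)) → u = 0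

theorem dead_open {N m : ℕ} (w0 : Fin m → Fin N → ℝ) (σ : Fin m → Bool) (h : Dead w0 σ) :
    ∀ᶠ w in 𝓝 w0, Dead w σ := by
  have key : ∀ᶠ w in 𝓝 w0, ∀ u ∈ Metric.sphere (0 : Fin N → ℝ) 1,
      ¬ (∀ j, 0 ≤ sgn (σ j) * (u ⬝ᵥ w j)) := by
    apply IsCompact.eventually_forall_of_forall_eventually (isCompact_sphere _ _)
    intro u hu
    have hclosed : IsClosed {z : (Fin m → Fin N → ℝ) × (Fin N → ℝ) |
        ∀ j, 0 ≤ sgn (σ j) * (z.2 ⬝ᵥ z.1 j)} := by
      simp only [Set.ofPred_forall]
      refine isClosed_iInter fun j => ?_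
      apply isClosed_le continuous_const
      unfold dotProduct
      fun_prop
    apply hclosed.isOpen_compl.mem_nhds
    intro g
    have := h u g
    rw [this] at hu
    simp at hu
  filter_upwards [key] with w hw u hu
  by_contra hne
  have hnorm : 0 < ‖u‖ := norm_pos_iff.mpr hne
  apply hw (‖u‖⁻¹ • u) (by simp [norm_smul, hnorm.ne'])
  intro j
  rw [smul_dotProduct, smul_eq_mul]
  have := mul_nonneg (inv_pos.mpr hnorm).le (hu j)
  calc (0 : ℝ) ≤ _ := this
    _ = _ := by ring

theorem finite_punctured {Z : Set ℝ} (hZ : Z.Finite) : ∀ᶠ t in 𝓝[≠] (0 : ℝ), t ∉ Z := by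
  have h1 : (Z \ {0})ᶜ ∈ 𝓝 (0 : ℝ) := by
    apply (hZ.subset Set.sdiff_subset).isClosed.isOpen_compl.mem_nhds
    simp
  have h2 : ∀ᶠ t in 𝓝[≠] (0 : ℝ), t ∈ (Z \ {0})ᶜ := eventually_nhdsWithin_of_eventually_nhds h1
  filter_upwards [h2, self_mem_nhdsWithin] with t h3 h4 h5
  exact h3 ⟨h5, h4⟩

theorem det_punctured {N : ℕ} (A B : Matrix (Fin N) (Fin N) ℝ) (hB : B.det ≠ 0) :
    ∀ᶠ t in 𝓝[≠] (0 : ℝ), (A + t • B).det ≠ 0 := by
  have hp : (-(A * B⁻¹)).charpoly ≠ 0 := (Matrix.charpoly_monic _).ne_zero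
  have hfin : {t : ℝ | (-(A * B⁻¹)).charpoly.IsRoot t}.Finite :=
    Polynomial.finite_setOfPred_isRoot hp
  filter_upwards [finite_punctured hfin] with t ht h0
  apply ht
  show Polynomial.eval t _ = 0
  rw [Matrix.eval_charpoly]
  have hu : IsUnit B.det := isUnit_iff_ne_zero.mpr hB
  have e : A + t • B = (Matrix.scalar (Fin N) t - -(A * B⁻¹)) * B := by
    rw [sub_neg_eq_add, add_mul, Matrix.mul_assoc, Matrix.nonsing_inv_mul _ hu, Matrix.mul_one,
      add_comm]
    congr 1
    rw [Matrix.scalar_apply, ← Matrix.smul_one_eq_diagonal, Matrix.smul_mul, Matrix.one_mul]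
  rw [e, Matrix.det_mul] at h0
  exact (mul_eq_zero.mp h0).resolve_right hB

theorem exists_gp {N m : ℕ} (w0 : Fin m → Fin N → ℝ) (P : (Fin m → Fin N → ℝ) → Prop)
    (hP : ∀ᶠ w in 𝓝 w0, P w) (l : Fin N) :
    ∃ w, P w ∧ (∀ e : Fin N ↪ Fin m, (Matrix.of fun i k => w (e i) k).det ≠ 0) ∧
      ∀ j, w j l ≠ 0 := by
  set g : Fin m → Fin N → ℝ := fun j k => (((j : ℕ) : ℝ) + 1) ^ (k : ℕ) with hg
  set path : ℝ → Fin m → Fin N → ℝ := fun t j k => w0 j k + t * g j k with hpath
  have hc : Continuous path := by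
    simp only [hpath]
    fun_prop
  have h0 : path 0 = w0 := by
    ext j k
    simp [hpath]
  have h1 : ∀ᶠ t in 𝓝[≠] (0 : ℝ), P (path t) := by
    have : Tendsto path (𝓝 0) (𝓝 w0) := by
      have := hc.tendsto 0
      rwa [h0] at this
    exact eventually_nhdsWithin_of_eventually_nhds (this.eventually hP)
  have h2 : ∀ᶠ t in 𝓝[≠] (0 : ℝ), ∀ e : Fin N ↪ Fin m,
      (Matrix.of fun i k => path t (e i) k).det ≠ 0 := by
    rw [eventually_all]
    intro e
    have hB : (Matrix.vandermonde fun i => (((e i : Fin m) : ℕ) : ℝ) + 1).det ≠ 0 := by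
      rw [Matrix.det_vandermonde_ne_zero_iff]
      intro a b hab
      have h3 : (((e a : Fin m) : ℕ) : ℝ) = (((e b : Fin m) : ℕ) : ℝ) := by
        simpa using hab
      exact e.injective (Fin.ext (by exact_mod_cast h3))
    filter_upwards [det_punctured (Matrix.of fun i k => w0 (e i) k) _ hB] with t ht
    have e1 : (Matrix.of fun i k => path t (e i) k) =
        (Matrix.of fun i k => w0 (e i) k) +
          t • (Matrix.vandermonde fun i => (((e i : Fin m) : ℕ) : ℝ) + 1) := by
      ext i k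
      simp [hpath, hg, Matrix.vandermonde_apply]
    rw [e1]
    exact ht
  have h3 : ∀ᶠ t in 𝓝[≠] (0 : ℝ), ∀ j, path t j l ≠ 0 := by
    rw [eventually_all]
    intro j
    have hgj : g j l ≠ 0 := by
      simp only [hg]
      positivity
    filter_upwards [finite_punctured (Set.finite_singleton (-w0 j l / g j l))] with t ht h4
    apply ht
    rw [Set.mem_singleton_iff, eq_div_iff hgj]
    simp only [hpath] at h4
    linarith
  obtain ⟨t, ht1, ht2, ht3⟩ := (h1.and (h2.and h3)).exists
  exact ⟨path t, ht1, ht2, ht3⟩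

/-! ## No projective image of the points is in convex position -/

theorem projMap_injective {d : ℕ} {A : Matrix (Fin d) (Fin d) ℝ} {b c : Fin d → ℝ} {δ : ℝ}
    (hdet : (projMatrix A b c δ).det ≠ 0) {x y : Fin d → ℝ} (hx : c ⬝ᵥ x + δ ≠ 0)
    (hy : c ⬝ᵥ y + δ ≠ 0) (hxy : projMap A b c δ x = projMap A b c δ y) : x = y := by
  set p : ℝ := (c ⬝ᵥ x + δ)⁻¹ with hp
  set q : ℝ := (c ⬝ᵥ y + δ)⁻¹ with hq
  have hp0 : p ≠ 0 := inv_ne_zero hx
  set z : Fin d ⊕ Unit → ℝ := Sum.elim (p • x - q • y) (fun _ => p - q) with hz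
  have hmul : (projMatrix A b c δ).mulVec z = 0 := by
    unfold projMatrix
    rw [Matrix.fromBlocks_mulVec]
    have e1 : z ∘ Sum.inl = p • x - q • y := by ext; simp [hz]
    have e2 : z ∘ Sum.inr = fun _ => p - q := by ext; simp [hz]
    rw [e1, e2]
    have h1 : A.mulVec (p • x - q • y) + (Matrix.of fun (i : Fin d) (_ : Unit) => b i).mulVec
        (fun _ => p - q) = 0 := by
      have : p • (A.mulVec x + b) = q • (A.mulVec y + b) := hxy
      ext i
      have h := congrFun this i
      simp only [Pi.smul_apply, Pi.add_apply, smul_eq_mul] at h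
      simp only [Matrix.mulVec_sub, Matrix.mulVec_smul, Pi.add_apply, Pi.sub_apply, Pi.smul_apply,
        smul_eq_mul, Pi.zero_apply]
      simp only [Matrix.mulVec, dotProduct, Matrix.of_apply, Finset.univ_unique,
        Finset.sum_singleton] at h ⊢
      linarith
    have h2 : (Matrix.of fun (_ : Unit) (j : Fin d) => c j).mulVec (p • x - q • y) +
        (Matrix.of fun (_ : Unit) (_ : Unit) => δ).mulVec (fun _ => p - q) = 0 := by
      have hx' : p * (c ⬝ᵥ x + δ) = 1 := inv_mul_cancel₀ hx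
      have hy' : q * (c ⬝ᵥ y + δ) = 1 := inv_mul_cancel₀ hy
      ext i
      simp only [Matrix.mulVec_sub, Matrix.mulVec_smul, Pi.add_apply, Pi.sub_apply, Pi.smul_apply,
        smul_eq_mul, Pi.zero_apply]
      simp only [Matrix.mulVec, dotProduct, Matrix.of_apply, Finset.univ_unique,
        Finset.sum_singleton] at hx' hy' ⊢
      linarith
    rw [h1, h2]
    ext i
    cases i <;> simp
  have hz0 := Matrix.eq_zero_of_mulVec_eq_zero hdet hmul
  have hpq : p = q := by
    have := congrFun hz0 (Sum.inr ())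
    simp only [hz, Sum.elim_inr, Pi.zero_apply] at this
    linarith
  ext i
  have := congrFun hz0 (Sum.inl i)
  simp only [hz, Sum.elim_inl, Pi.sub_apply, Pi.smul_apply, smul_eq_mul, Pi.zero_apply, ← hpq]
    at this
  have h3 : p * (x i - y i) = 0 := by linarith
  rcases mul_eq_zero.mp h3 with h | h
  · exact absurd h hp0
  · linarith


/-- homogeneous coordinates -/
def lift {d : ℕ} (x : Fin d → ℝ) : Fin (d + 1) → ℝ := Fin.snoc (α := fun _ => ℝ) x 1

@[simp] theorem lift_castSucc {d : ℕ} (x : Fin d → ℝ) (k : Fin d) : lift x k.castSucc = x k := by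
  simp [lift]

@[simp] theorem lift_last {d : ℕ} (x : Fin d → ℝ) : lift x (Fin.last d) = 1 := by
  simp [lift]

/-- the homogeneous coordinates of any `d + 1` points of `S` are linearly independent -/
def LI {d : ℕ} (S : Finset (Fin d → ℝ)) : Prop :=
  ∀ F ⊆ S, F.card = d + 1 → LinearIndepOn ℝ lift (F : Set (Fin d → ℝ))

theorem LI.generalPosition {d : ℕ} {S : Finset (Fin d → ℝ)} (h : LI S) : GeneralPosition S := by
  intro F hF hcard
  rintro ⟨u, t, hu, hut⟩
  have hli : LinearIndependent ℝ (fun x : F => lift (x : Fin d → ℝ)) := h F hF hcard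
  have hspan := hli.span_eq_top_of_card_eq_finrank' (by simp [hcard])
  let φ : (Fin (d + 1) → ℝ) →ₗ[ℝ] ℝ :=
    (∑ k : Fin d, u k • LinearMap.proj (k.castSucc)) - t • LinearMap.proj (Fin.last d)
  have hφ : ∀ y, φ y = (∑ k : Fin d, u k * y k.castSucc) - t * y (Fin.last d) := by
    intro y
    simp [φ]
  have hker : Submodule.span ℝ (Set.range fun x : F => lift (x : Fin d → ℝ)) ≤ LinearMap.ker φ := by
    rw [Submodule.span_le]
    rintro _ ⟨x, rfl⟩
    have hx := hut x x.2
    simp only [SetLike.mem_coe, LinearMap.mem_ker, hφ, lift_castSucc, lift_last, mul_one]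
    simp only [dotProduct] at hx
    linarith
  rw [hspan] at hker
  apply hu
  ext k
  have hk : φ (Pi.single k.castSucc 1) = 0 := by
    have : (Pi.single k.castSucc 1 : Fin (d + 1) → ℝ) ∈ LinearMap.ker φ := hker Submodule.mem_top
    exact this
  rw [hφ] at hk
  have h1 : (Pi.single k.castSucc (1 : ℝ) : Fin (d + 1) → ℝ) (Fin.last d) = 0 := by
    rw [Pi.single_apply, if_neg (Fin.castSucc_lt_last k).ne']
  have h2 : ∀ l : Fin d, (Pi.single k.castSucc (1 : ℝ) : Fin (d + 1) → ℝ) l.castSucc =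
      if l = k then 1 else 0 := by
    intro l
    rw [Pi.single_apply]
    simp only [Fin.castSucc_inj]
  simp only [h1, h2, mul_zero, sub_zero, mul_ite, mul_one, Finset.sum_ite_eq', Finset.mem_univ,
    if_true] at hk
  exact hk

theorem exists_extension {d : ℕ} (hd : 1 ≤ d) (S : Finset (Fin d → ℝ)) (hS : LI S) (hc : d + 1 ≤ S.card) :
    ∃ x, x ∉ S ∧ LI (insert x S) := by
  classical
  let W0 : Submodule ℝ (Fin (d + 1) → ℝ) := LinearMap.ker (LinearMap.proj (Fin.last d))
  let 𝒲 : Finset (Submodule ℝ (Fin (d + 1) → ℝ)) :=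
    insert W0 ((S.powersetCard d).image (fun F : Finset (Fin d → ℝ) =>
      Submodule.span ℝ (lift '' (F : Set (Fin d → ℝ)))))
  have htop : (⊤ : Submodule ℝ (Fin (d + 1) → ℝ)) ∉ 𝒲 := by
    intro h
    rcases Finset.mem_insert.mp h with h | h
    · have : (Pi.single (Fin.last d) 1 : Fin (d + 1) → ℝ) ∈ W0 := h ▸ Submodule.mem_top
      simp [W0] at this
    · obtain ⟨F, hF, hFt⟩ := Finset.mem_image.mp h
      rw [Finset.mem_powersetCard] at hF
      have h1 : Module.finrank ℝ (Submodule.span ℝ (lift '' (F : Set (Fin d → ℝ)))) ≤ d := by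
        have h2 := finrank_span_finset_le_card (R := ℝ) (F.image lift)
        rw [Finset.coe_image] at h2
        exact h2.trans (Finset.card_image_le.trans hF.2.le)
      rw [hFt] at h1
      simp at h1
  have hne := Subspace.biUnion_ne_univ_of_top_notMem htop
  obtain ⟨v, hv⟩ := (Set.ne_univ_iff_exists_notMem _).mp hne
  have hv' : ∀ p ∈ 𝒲, v ∉ p := by
    intro p hp hvp
    exact hv (Set.mem_biUnion hp hvp)
  have hv0 : v (Fin.last d) ≠ 0 := by
    have := hv' W0 (Finset.mem_insert_self _ _)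
    simpa [W0] using this
  let x : Fin d → ℝ := fun k => v k.castSucc / v (Fin.last d)
  have hlx : v (Fin.last d) • lift x = v := by
    ext k
    refine Fin.lastCases ?_ (fun k => ?_) k
    · simp
    · simp only [Pi.smul_apply, lift_castSucc, smul_eq_mul, x]
      field_simp
  have hnot : ∀ F ⊆ S, F.card = d → lift x ∉ Submodule.span ℝ (lift '' (F : Set _)) := by
    intro F hF hFc hmem
    refine hv' _ (Finset.mem_insert_of_mem (Finset.mem_image.mpr
      ⟨F, Finset.mem_powersetCard.mpr ⟨hF, hFc⟩, rfl⟩)) ?_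
    rw [← hlx]
    exact Submodule.smul_mem _ _ hmem
  have hxS : x ∉ S := by
    intro hx
    obtain ⟨F, h1, h2, h3⟩ := Finset.exists_subsuperset_card_eq
      (Finset.singleton_subset_iff.mpr hx) (by simpa using hd : ({x} : Finset _).card ≤ d) (by omega)
    exact hnot F h2 h3 (Submodule.subset_span ⟨x, h1 (Finset.mem_singleton_self x), rfl⟩)
  refine ⟨x, hxS, ?_⟩
  intro F hF hFc
  by_cases hxF : x ∈ F
  · have hsub : F.erase x ⊆ S := by
      intro y hy
      have h1 := hF (Finset.mem_of_mem_erase hy)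
      rcases Finset.mem_insert.mp h1 with h | h
      · exact absurd h (Finset.ne_of_mem_erase hy)
      · exact h
    have hcard : (F.erase x).card = d := by
      rw [Finset.card_erase_of_mem hxF, hFc, Nat.add_sub_cancel]
    obtain ⟨G, h1, h2, h3⟩ := Finset.exists_subsuperset_card_eq hsub (by omega : _ ≤ d + 1) hc
    have hli : LinearIndepOn ℝ lift ((F.erase x : Finset _) : Set (Fin d → ℝ)) :=
      (hS G h2 h3).mono (by exact_mod_cast h1)
    have h4 := hli.insert (hnot _ hsub hcard)
    have h5 : insert x ((F.erase x : Finset _) : Set (Fin d → ℝ)) = (F : Set _) := by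
      rw [← Finset.coe_insert, Finset.insert_erase hxF]
    rwa [h5] at h4
  · refine hS F ?_ hFc
    intro y hy
    rcases Finset.mem_insert.mp (hF hy) with h | h
    · exact absurd (h ▸ hy) hxF
    · exact h


theorem sgn_decide_pos {x : ℝ} (hx : x ≠ 0) : 0 < sgn (decide (0 < x)) * x := by
  by_cases h : 0 < x
  · simp [sgn, h]
  · have : x < 0 := lt_of_le_of_ne (not_lt.mp h) hx
    simp [sgn, h, this]

theorem not_mapsToVertices {d m : ℕ} (hm : 0 < m) (pt : Fin m → Fin d → ℝ)
    (hpt : Function.Injective pt) (s : Fin m → ℝ) (hs : ∀ j, s j ≠ 0)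
    (hD : ∀ σ : Fin m → Bool, Dead (fun j => s j • lift (pt j)) σ ∨
      ∃ i, Dead (fun j => s j • lift (pt j)) (Function.update σ i (!(σ i))))
    (S : Finset (Fin d → ℝ)) (hS : ∀ j, pt j ∈ S) : ¬ MapsToVertices S := by
  rintro ⟨A, b, c, δ, hdet, hperm, hext⟩
  set T := projMap A b c δ with hT
  have hh : ∀ j, c ⬝ᵥ pt j + δ ≠ 0 := fun j => hperm _ (hS j)
  set σ : Fin m → Bool := fun j => decide (0 < s j * (c ⬝ᵥ pt j + δ)) with hσ
  have hσp : ∀ j, 0 < sgn (σ j) * (s j * (c ⬝ᵥ pt j + δ)) := fun j =>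
    sgn_decide_pos (mul_ne_zero (hs j) (hh j))
  rcases hD σ with h | ⟨i, h⟩
  · -- the sign vector itself is realised
    have hu : ∀ j, (Fin.snoc (α := fun _ => ℝ) c δ : Fin (d + 1) → ℝ) ⬝ᵥ (s j • lift (pt j)) =
        s j * (c ⬝ᵥ pt j + δ) := by
      intro j
      rw [dotProduct_smul, smul_eq_mul]
      congr 1
      simp [dotProduct, Fin.sum_univ_castSucc]
    have h0 := h (Fin.snoc (α := fun _ => ℝ) c δ) (fun j => by rw [hu j]; exact (hσp j).le)
    have h1 := hu ⟨0, hm⟩
    rw [h0, zero_dotProduct] at h1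
    exact mul_ne_zero (hs _) (hh _) h1.symm
  · -- separate `T (pt i)` from the other points
    set Y : Set (Fin d → ℝ) := T '' (S : Set (Fin d → ℝ)) with hY
    set Y' : Set (Fin d → ℝ) := (fun j => T (pt j)) '' {j | j ≠ i} with hY'
    have hsub : Y' ⊆ Y := by
      rintro _ ⟨j, _, rfl⟩
      exact ⟨pt j, hS j, rfl⟩
    have hnot : T (pt i) ∉ convexHull ℝ Y' := by
      intro hmem
      have hex : T (pt i) ∈ (convexHull ℝ Y').extremePoints ℝ :=
        inter_extremePoints_subset_extremePoints_of_subset (convexHull_mono hsub)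
          ⟨hmem, hext _ (hS i)⟩
      obtain ⟨j, hj, hji⟩ := extremePoints_convexHull_subset hex
      have := hpt (projMap_injective hdet (hh j) (hh i) hji)
      exact hj this
    have hclosed : IsClosed (convexHull ℝ Y') :=
      (Set.Finite.isCompact_convexHull (𝕜 := ℝ)
        ((Set.toFinite {j : Fin m | j ≠ i}).image _)).isClosed
    obtain ⟨g, α, hg1, hg2⟩ := geometric_hahn_banach_point_closed (convex_convexHull ℝ Y')
      hclosed hnot
    set L : (Fin d → ℝ) →ₗ[ℝ] ℝ := g.toLinearMap ∘ₗ A.mulVecLin with hL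
    have hLx : ∀ x, L x = g (A.mulVec x) := fun x => rfl
    set u : Fin (d + 1) → ℝ := Fin.snoc (α := fun _ => ℝ)
      (fun k => L (fun l => if k = l then 1 else 0) - α * c k) (g b - α * δ) with hu
    have hux : ∀ j, u ⬝ᵥ lift (pt j) = (c ⬝ᵥ pt j + δ) * (g (T (pt j)) - α) := by
      intro j
      have e1 : g (T (pt j)) = (c ⬝ᵥ pt j + δ)⁻¹ * (L (pt j) + g b) := by
        rw [hLx, ← map_add, hT]
        unfold projMap
        rw [map_smul, smul_eq_mul]
      have e2 : u ⬝ᵥ lift (pt j) = L (pt j) + g b - α * (c ⬝ᵥ pt j + δ) := by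
        rw [LinearMap.pi_apply_eq_sum_univ L (pt j)]
        simp only [dotProduct, Fin.sum_univ_castSucc, hu, Fin.snoc_castSucc, Fin.snoc_last,
          lift_castSucc, lift_last, smul_eq_mul, sub_mul, Finset.sum_sub_distrib]
        rw [mul_add, Finset.mul_sum]
        have e3 : ∑ k, L (fun l => if k = l then 1 else 0) * pt j k =
            ∑ k, pt j k * L (fun l => if k = l then 1 else 0) :=
          Finset.sum_congr rfl fun k _ => mul_comm _ _
        have e4 : ∑ k, α * c k * pt j k = ∑ k, α * (c k * pt j k) :=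
          Finset.sum_congr rfl fun k _ => mul_assoc _ _ _
        rw [e3, e4]
        ring
      rw [e1, e2]
      have := hh j
      field_simp
    have hpos : ∀ j, 0 < sgn (Function.update σ i (!(σ i)) j) *
        (u ⬝ᵥ (s j • lift (pt j))) := by
      intro j
      rw [dotProduct_smul, smul_eq_mul, hux]
      by_cases hj : j = i
      · subst hj
        rw [Function.update_self, sgn_not]
        have h1 : g (T (pt j)) - α < 0 := by linarith
        have h2 := mul_pos_of_neg_of_neg h1 (neg_lt_zero.mpr (hσp j))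
        calc (0 : ℝ) < _ := h2
          _ = _ := by ring
      · rw [Function.update_of_ne hj]
        have h1 : 0 < g (T (pt j)) - α := by
          have := hg2 (T (pt j)) (subset_convexHull ℝ Y' ⟨j, hj, rfl⟩)
          linarith
        have h2 := mul_pos h1 (hσp j)
        calc (0 : ℝ) < _ := h2
          _ = _ := by ring
    have h0 := h u (fun j => (hpos j).le)
    have h1 := hpos i
    rw [h0, zero_dotProduct, mul_zero] at h1
    exact lt_irrefl _ h1

theorem det_lift {d m : ℕ} (pt : Fin m → Fin d → ℝ) (s : Fin m → ℝ)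
    (hdet : ∀ e : Fin (d + 1) ↪ Fin m,
      (Matrix.of fun i k => (s (e i) • lift (pt (e i))) k).det ≠ 0)
    (e : Fin (d + 1) ↪ Fin m) : (Matrix.of fun i k => lift (pt (e i)) k).det ≠ 0 := by
  intro h
  apply hdet e
  have : (Matrix.of fun i k => (s (e i) • lift (pt (e i))) k) =
      Matrix.of fun i k => s (e i) * (Matrix.of fun i k => lift (pt (e i)) k) i k := by
    ext i k
    simp
  rw [this, Matrix.det_mul_column, h, mul_zero]

theorem pt_injective {d m : ℕ} (hd : 1 ≤ d) (hm : d + 1 ≤ m) (pt : Fin m → Fin d → ℝ)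
    (hdet : ∀ e : Fin (d + 1) ↪ Fin m, (Matrix.of fun i k => lift (pt (e i)) k).det ≠ 0) :
    Function.Injective pt := by
  classical
  intro i j hij
  by_contra hne
  obtain ⟨G, hG1, hG2⟩ := Finset.exists_superset_card_eq (s := ({i, j} : Finset (Fin m)))
    (n := d + 1) (by rw [Finset.card_pair hne]; omega) (by simpa using hm)
  set φ := G.equivFinOfCardEq hG2 with hφ
  set e : Fin (d + 1) ↪ Fin m := φ.symm.toEmbedding.trans (Function.Embedding.subtype _) with he
  have hi : i ∈ G := hG1 (by simp)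
  have hj : j ∈ G := hG1 (by simp)
  have h1 : e (φ ⟨i, hi⟩) = i := by simp [he]
  have h2 : e (φ ⟨j, hj⟩) = j := by simp [he]
  apply hdet e
  apply Matrix.det_zero_of_row_eq (i := φ ⟨i, hi⟩) (j := φ ⟨j, hj⟩)
  · intro h3
    apply hne
    have := φ.injective h3
    simpa using this
  · ext k
    simp only [Matrix.of_apply, h1, h2, hij]

theorem LI_base {d m : ℕ} (pt : Fin m → Fin d → ℝ)
    (hdet : ∀ e : Fin (d + 1) ↪ Fin m, (Matrix.of fun i k => lift (pt (e i)) k).det ≠ 0) :
    LI (Finset.univ.image pt) := by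
  classical
  intro F hF hcard
  have hch : ∀ x : F, ∃ j, pt j = x := by
    intro x
    obtain ⟨j, _, hj⟩ := Finset.mem_image.mp (hF x.2)
    exact ⟨j, hj⟩
  choose c hc using hch
  set φ := F.equivFinOfCardEq hcard with hφ
  have hci : Function.Injective c := by
    intro x y hxy
    apply Subtype.ext
    rw [← hc x, ← hc y, hxy]
  set e : Fin (d + 1) ↪ Fin m := φ.symm.toEmbedding.trans ⟨c, hci⟩ with he
  have h1 := Matrix.linearIndependent_rows_of_det_ne_zero (hdet e)
  have h2 : LinearIndependent ℝ (fun x : F => lift (x : Fin d → ℝ)) := by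
    have h3 := h1.comp φ φ.injective
    have e1 : (fun x : F => lift (x : Fin d → ℝ)) =
        (fun i => Matrix.of (fun i k => lift (pt (e i)) k) i) ∘ φ := by
      funext x
      ext k
      simp [he, hc]
    rw [e1]
    exact h3
  exact h2

theorem exists_sets {d m : ℕ} (hd : 1 ≤ d) (hm : d + 1 ≤ m) (w0 : Fin m → Fin (d + 1) → ℝ)
    (hw0 : ∀ σ : Fin m → Bool, Dead w0 σ ∨ ∃ i, Dead w0 (Function.update σ i (!(σ i)))) :
    ∀ n : ℕ, m ≤ n →
      ∃ S : Finset (Fin d → ℝ), S.card = n ∧ GeneralPosition S ∧ ¬ MapsToVertices S := by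
  classical
  have hopen : ∀ᶠ w in 𝓝 w0, ∀ σ : Fin m → Bool,
      Dead w σ ∨ ∃ i, Dead w (Function.update σ i (!(σ i))) := by
    rw [eventually_all]
    intro σ
    rcases hw0 σ with h | ⟨i, h⟩
    · filter_upwards [dead_open w0 _ h] with w hw
      exact Or.inl hw
    · filter_upwards [dead_open w0 _ h] with w hw
      exact Or.inr ⟨i, hw⟩
  obtain ⟨w, hw1, hw2, hw3⟩ := exists_gp w0 _ hopen (Fin.last d)
  set pt : Fin m → Fin d → ℝ := fun j k => w j k.castSucc / w j (Fin.last d) with hpt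
  have hwl : ∀ j, w j = w j (Fin.last d) • lift (pt j) := by
    intro j
    have := hw3 j
    ext k
    refine Fin.lastCases ?_ (fun k => ?_) k
    · simp
    · simp only [Pi.smul_apply, lift_castSucc, smul_eq_mul, hpt]
      field_simp
  have hwe : w = fun j => w j (Fin.last d) • lift (pt j) := funext hwl
  have hdl : ∀ e : Fin (d + 1) ↪ Fin m, (Matrix.of fun i k => lift (pt (e i)) k).det ≠ 0 := by
    apply det_lift pt (fun j => w j (Fin.last d))
    intro e
    have e1 : (Matrix.of fun i k => (w (e i) (Fin.last d) • lift (pt (e i))) k) =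
        Matrix.of fun i k => w (e i) k := by
      ext i k
      rw [Matrix.of_apply, Matrix.of_apply, ← hwl]
    rw [e1]
    exact hw2 e
  have hinj := pt_injective hd hm pt hdl
  have hD := hw1
  rw [hwe] at hD
  have hnm : ∀ S : Finset (Fin d → ℝ), (∀ j, pt j ∈ S) → ¬ MapsToVertices S := fun S hS =>
    not_mapsToVertices (by omega) pt hinj (fun j => w j (Fin.last d)) hw3 hD S hS
  have key : ∀ n : ℕ, m ≤ n →
      ∃ S : Finset (Fin d → ℝ), S.card = n ∧ LI S ∧ ∀ j, pt j ∈ S := by
    intro n hn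
    induction n, hn using Nat.le_induction with
    | base =>
      refine ⟨Finset.univ.image pt, ?_, LI_base pt hdl,
        fun j => Finset.mem_image_of_mem _ (Finset.mem_univ j)⟩
      rw [Finset.card_image_of_injective _ hinj]
      simp
    | succ n hn ih =>
      obtain ⟨S, hc, hli, hp⟩ := ih
      obtain ⟨x, hx, hli'⟩ := exists_extension hd S hli (by omega)
      exact ⟨insert x S, by rw [Finset.card_insert_of_notMem hx, hc], hli',
        fun j => Finset.mem_insert_of_mem (hp j)⟩
  intro n hn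
  obtain ⟨S, hc, hli, hp⟩ := key n hn
  exact ⟨S, hc, hli.generalPosition, hnm S hp⟩

theorem result_aux : ∀ k n : ℕ, 15 + 5 * k ≤ n →
    ∃ S : Finset (Fin (6 + 2 * k) → ℝ), S.card = n ∧ GeneralPosition S ∧ ¬ MapsToVertices S := by
  intro k
  obtain ⟨v, hv⟩ := exists_vectors k
  have e : 7 + 2 * k = 6 + 2 * k + 1 := by omega
  rw [e] at hv
  apply exists_sets (by omega) (by omega) (fun (j : Fin (15 + 5 * k)) (q : Fin (6 + 2 * k + 1)) => v j q)
  intro σ
  have hdead : ∀ (ρ : ℕ → Bool) (τ : Fin (15 + 5 * k) → Bool), (∀ j : Fin (15 + 5 * k), ρ j = τ j) →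
      (∀ u : Fin (6 + 2 * k + 1) → ℝ,
        (∀ j < 15 + 5 * k, 0 ≤ sgn (ρ j) * dot (6 + 2 * k + 1) u (v j)) → u = 0) →
      Dead (fun (j : Fin (15 + 5 * k)) (q : Fin (6 + 2 * k + 1)) => v j q) τ := by
    intro ρ τ hρ h u hu
    apply h u
    intro j hj
    have h1 := hu ⟨j, hj⟩
    rw [← hρ ⟨j, hj⟩] at h1
    exact h1
  set ρ : ℕ → Bool := fun j => if h : j < 15 + 5 * k then σ ⟨j, h⟩ else true with hρ
  have hρσ : ∀ j : Fin (15 + 5 * k), ρ j = σ j := by
    intro j
    simp only [hρ, j.2, dif_pos, Fin.eta]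
  rcases hv ρ with h | ⟨i, hi, h⟩
  · exact Or.inl (hdead ρ σ hρσ h)
  · refine Or.inr ⟨⟨i, hi⟩, hdead (flipS i ρ) _ ?_ h⟩
    intro j
    by_cases hj : (j : ℕ) = i
    · have : j = ⟨i, hi⟩ := Fin.ext hj
      subst this
      rw [Function.update_self, ← hρσ]
      exact flipS_self i ρ
    · have : j ≠ ⟨i, hi⟩ := fun h => hj (by rw [h])
      rw [Function.update_of_ne this, ← hρσ]
      exact flipS_ne hj ρ

/-- **Main result.** For every even `d ≥ 6` and every `n ≥ 5d/2` there is a set of `n` points in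
general position in `ℝ^d` which cannot be mapped onto the vertices of a convex polytope by a
permissible projective transformation; that is, `ν(d) ≤ 5d/2 - 1` for every even `d ≥ 6`. -/
theorem result : ∀ d n : ℕ, Even d → 6 ≤ d → 5 * d ≤ 2 * n →
    ∃ S : Finset (Fin d → ℝ), S.card = n ∧ GeneralPosition S ∧ ¬ MapsToVertices S := by
  intro d n hd h6 hn
  obtain ⟨r, hr⟩ := hd
  obtain ⟨k, rfl⟩ : ∃ k, d = 6 + 2 * k := ⟨r - 3, by omega⟩
  exact result_aux k n (by omega)

end Pool.Agent.Results.MP_1e71f9_co.EvenDimensions
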