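import Mathlib
import Pool.Agent.MP1e71f9co.EvenDimTable

/-!
# Vectors for the McMullen problem in odd dimensions

`exists_vectors_odd`: for every `k` there are `32 + 5k` vectors in `ℝ^(14+2k)` such that every sign
vector, or one obtained from it by changing one sign, is not realised by any nonzero linear
functional, even weakly.

The vectors are glued (`meet`) from two configurations of `Pool.Agent.MP1e71f9co.EvenDimTable`: the
left one consists of the ten special vectors and `11 + 5k` lexicographic columns, the right one, with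
its coordinates in reversed order, of the ten special vectors and one lexicographic column.  The
paths of a left and of a right sign vector have to meet for the glued sign vector to be realised; the
invariant `InvG` of the left paths and the condition `ini_hE` on the right ones show that this fails
after changing at most one sign (`glue_comb`).
-/

namespace Pool.Agent.MP1e71f9co.EvenDimTable

/-! ## Gluing two configurations -/

/-- a dead state kills vectors supported in the first rows -/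
theorem DeadAt.zero {v : ℕ → ℕ → ℝ} {n : ℕ} {σ : ℕ → Bool} {q : ℕ} {ε : ℝ}
    (h : DeadAt v n σ q ε) {R : ℕ} (u : Fin R → ℝ) (hu0 : ∀ i : Fin R, q < (i : ℕ) → u i = 0)
    (hu : ∀ j < n, 0 ≤ sgn (σ j) * dot R u (v j))
    (hε : ∀ i : Fin R, (i : ℕ) = q → 0 ≤ ε * u i) : u = 0 := by
  set x : ℕ → ℝ := fun i => if hi : i < R then u ⟨i, hi⟩ else 0 with hx
  have hxu : ∀ i : Fin R, x i = u i := fun i => by simp [hx]
  have hx1 : ∀ i, R ≤ i → x i = 0 := fun i hi => by simp [hx, not_lt.mpr hi]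
  have hx2 : ∀ i, q < i → x i = 0 := fun i hi => by
    by_cases hR : i < R
    · rw [show x i = u ⟨i, hR⟩ from hxu ⟨i, hR⟩]
      exact hu0 ⟨i, hR⟩ hi
    · exact hx1 i (not_lt.mp hR)
  have hsum : ∀ y : ℕ → ℝ, dot (q + 1) (fun i => x i) y = dot R u y := by
    intro y
    unfold dot
    have e1 : ∑ i : Fin (q + 1), x i * y i = ∑ i ∈ Finset.range (q + 1), x i * y i :=
      Fin.sum_univ_eq_sum_range (fun i => x i * y i) (q + 1)
    have e2 : ∑ i : Fin R, u i * y i = ∑ i ∈ Finset.range R, x i * y i := by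
      rw [← Fin.sum_univ_eq_sum_range (fun i => x i * y i) R]
      refine Finset.sum_congr rfl fun i _ => ?_
      rw [hxu]
    rw [e1, e2]
    rcases le_total (q + 1) R with hle | hle
    · apply Finset.sum_subset (Finset.range_mono hle)
      intro i _ hi
      rw [hx2 i (by simpa using hi), zero_mul]
    · symm
      apply Finset.sum_subset (Finset.range_mono hle)
      intro i _ hi
      rw [hx1 i (by simpa using hi), zero_mul]
  have h0 := h (fun i => x i) (by intro j hj; rw [hsum]; exact hu j hj) (by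
    rw [Fin.val_last]
    by_cases hq : q < R
    · rw [show x q = u ⟨q, hq⟩ from hxu ⟨q, hq⟩]
      exact hε ⟨q, hq⟩ rfl
    · rw [hx1 q (not_lt.mp hq), mul_zero])
  ext i
  by_cases hi : (i : ℕ) ≤ q
  · have h1 := congrFun h0 ⟨i, by omega⟩
    rw [← hxu]
    exact h1
  · exact hu0 i (by omega)

/-- the right-hand vectors: coordinates reversed and rescaled -/
noncomputable def rv (R : ℕ) (s : ℕ → Bool) (v' : ℕ → ℕ → ℝ) (t : ℝ) (j : ℕ) (k : Fin R) : ℝ :=
  sgn (s k) * t ^ (k.rev : ℕ) * v' j k.rev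

theorem meet (R : ℕ) (s : ℕ → Bool) (v v' : ℕ → ℕ → ℝ) (n n' : ℕ) (σ ρ : ℕ → Bool) (q q' : ℕ)
    (e e' : Bool) (h : DeadAt v n σ q (-sgn e)) (h' : DeadAt v' n' ρ q' (-sgn e'))
    (hc : R ≤ q + q' ∨ (q + q' + 1 = R ∧ (e == e') ≠ s q)) :
    ∀ᶠ t : ℝ in nhds 0, 0 < t → ∀ u : Fin R → ℝ,
      (∀ j < n, 0 ≤ sgn (σ j) * dot R u (v j)) →
      (∀ j < n', 0 ≤ sgn (ρ j) * (u ⬝ᵥ rv R s v' t j)) → u = 0 := by
  have key : ∀ᶠ t : ℝ in nhds 0, ∀ y ∈ (Metric.sphere (0 : Fin R → ℝ) 1) ×ˢ
      (Metric.sphere (0 : Fin R → ℝ) 1),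
      ¬ ((∀ j < n, 0 ≤ sgn (σ j) * dot R y.1 (v j)) ∧
        (∀ j < n', 0 ≤ sgn (ρ j) * dot R y.2 (v' j)) ∧
        (∀ k : Fin R, 0 ≤ y.2 k * (sgn (s k.rev) * y.1 k.rev)) ∧
        ∀ k l : Fin R, k < l → y.2 l * (sgn (s k.rev) * y.1 k.rev) =
          t ^ ((l : ℕ) - k) * y.2 k * (sgn (s l.rev) * y.1 l.rev)) := by
    apply IsCompact.eventually_forall_of_forall_eventually
      ((isCompact_sphere _ _).prod (isCompact_sphere _ _))
    rintro ⟨u, z⟩ ⟨hu1, hz1⟩
    have hclosed : IsClosed {w : ℝ × ((Fin R → ℝ) × (Fin R → ℝ)) |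
        (∀ j < n, 0 ≤ sgn (σ j) * dot R w.2.1 (v j)) ∧
        (∀ j < n', 0 ≤ sgn (ρ j) * dot R w.2.2 (v' j)) ∧
        (∀ k : Fin R, 0 ≤ w.2.2 k * (sgn (s k.rev) * w.2.1 k.rev)) ∧
        ∀ k l : Fin R, k < l → w.2.2 l * (sgn (s k.rev) * w.2.1 k.rev) =
          w.1 ^ ((l : ℕ) - k) * w.2.2 k * (sgn (s l.rev) * w.2.1 l.rev)} := by
      have c1 : IsClosed {w : ℝ × ((Fin R → ℝ) × (Fin R → ℝ)) |
          ∀ j < n, 0 ≤ sgn (σ j) * dot R w.2.1 (v j)} := by
        simp only [Set.ofPred_forall]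
        refine isClosed_iInter fun j => isClosed_iInter fun _ => ?_
        apply isClosed_le continuous_const
        unfold dot
        fun_prop
      have c2 : IsClosed {w : ℝ × ((Fin R → ℝ) × (Fin R → ℝ)) |
          ∀ j < n', 0 ≤ sgn (ρ j) * dot R w.2.2 (v' j)} := by
        simp only [Set.ofPred_forall]
        refine isClosed_iInter fun j => isClosed_iInter fun _ => ?_
        apply isClosed_le continuous_const
        unfold dot
        fun_prop
      have c3 : IsClosed {w : ℝ × ((Fin R → ℝ) × (Fin R → ℝ)) |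
          ∀ k : Fin R, 0 ≤ w.2.2 k * (sgn (s k.rev) * w.2.1 k.rev)} := by
        simp only [Set.ofPred_forall]
        refine isClosed_iInter fun k => ?_
        apply isClosed_le continuous_const
        fun_prop
      have c4 : IsClosed {w : ℝ × ((Fin R → ℝ) × (Fin R → ℝ)) |
          ∀ k l : Fin R, k < l → w.2.2 l * (sgn (s k.rev) * w.2.1 k.rev) =
            w.1 ^ ((l : ℕ) - k) * w.2.2 k * (sgn (s l.rev) * w.2.1 l.rev)} := by
        simp only [Set.ofPred_forall]
        refine isClosed_iInter fun k => isClosed_iInter fun l => isClosed_iInter fun _ => ?_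
        apply isClosed_eq <;> fun_prop
      exact c1.inter (c2.inter (c3.inter c4))
    apply hclosed.isOpen_compl.mem_nhds
    rintro ⟨g1, g2, g3, g4⟩
    simp only at g1 g2 g3 g4
    have hu0 : u ≠ 0 := by
      intro h0
      rw [h0] at hu1
      simp at hu1
    have hz0 : z ≠ 0 := by
      intro h0
      rw [h0] at hz1
      simp at hz1
    have g5 : ∀ k l : Fin R, k < l → u k.rev ≠ 0 → z l = 0 := by
      intro k l hkl huk
      have := g4 k l hkl
      have h1 : (l : ℕ) - k ≠ 0 := by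
        have : (k : ℕ) < l := hkl
        omega
      rw [zero_pow h1, zero_mul, zero_mul] at this
      rcases mul_eq_zero.mp this with h2 | h2
      · exact h2
      · exact absurd h2 (mul_ne_zero (sgn_ne _) huk)
    -- step A
    have hA : ∀ k : Fin R, (k : ℕ) < q' → u k.rev = 0 := by
      intro k hk
      by_contra hne
      apply hz0
      apply h'.zero z
      · intro i hi
        exact g5 k i (Fin.lt_def.mpr (by omega)) hne
      · exact g2
      · intro i hi
        rw [g5 k i (Fin.lt_def.mpr (by omega)) hne, mul_zero]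
    have hA' : ∀ i : Fin R, R ≤ i + q' → u i = 0 := by
      intro i hi
      have h1 := hA i.rev (by rw [Fin.val_rev]; omega)
      rwa [Fin.rev_rev] at h1
    rcases hc with hc | ⟨hc, hs⟩
    · apply hu0
      apply h.zero u
      · intro i hi
        exact hA' i (by omega)
      · exact g1
      · intro i hi
        rw [hA' i (by omega), mul_zero]
    · have hqR : q < R := by omega
      have hq'R : q' < R := by omega
      have hrev : (⟨q', hq'R⟩ : Fin R).rev = ⟨q, hqR⟩ := by
        ext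
        rw [Fin.val_rev]
        simp only
        omega
      have h1 : 0 < sgn e * u ⟨q, hqR⟩ := by
        by_contra hn
        apply hu0
        apply h.zero u
        · intro i hi
          exact hA' i (by omega)
        · exact g1
        · intro i hi
          have : i = ⟨q, hqR⟩ := Fin.ext hi
          rw [this]
          linarith
      have huq : u (⟨q', hq'R⟩ : Fin R).rev ≠ 0 := by
        rw [hrev]
        intro h0
        rw [h0, mul_zero] at h1
        exact lt_irrefl _ h1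
      have h2 : 0 < sgn e' * z ⟨q', hq'R⟩ := by
        by_contra hn
        apply hz0
        apply h'.zero z
        · intro i hi
          exact g5 ⟨q', hq'R⟩ i (Fin.lt_def.mpr hi) huq
        · exact g2
        · intro i hi
          have : i = ⟨q', hq'R⟩ := Fin.ext hi
          rw [this]
          linarith
      have h3 := g3 ⟨q', hq'R⟩
      rw [hrev] at h3
      have h4 : sgn (s q) = -(sgn e * sgn e') := by
        rw [← sgn_beq, ← sgn_not]
        congr 1
        revert hs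
        generalize (e == e') = x
        generalize s q = y
        cases x <;> cases y <;> simp
      simp only [h4] at h3
      have h5 := mul_pos h1 h2
      nlinarith
  filter_upwards [key] with t ht htp u h1 h2
  by_contra hne
  have hnorm : 0 < ‖u‖ := norm_pos_iff.mpr hne
  set z : Fin R → ℝ := fun k => t ^ (k : ℕ) * (sgn (s k.rev) * u k.rev) with hz
  have hzne : z ≠ 0 := by
    intro h0
    apply hne
    ext k
    have := congrFun h0 k.rev
    simp only [hz, Fin.rev_rev, Pi.zero_apply] at this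
    rcases mul_eq_zero.mp this with h3 | h3
    · exact absurd h3 (pow_ne_zero _ htp.ne')
    · exact (mul_eq_zero.mp h3).resolve_left (sgn_ne _)
  have hznorm : 0 < ‖z‖ := norm_pos_iff.mpr hzne
  have hiu : 0 < ‖u‖⁻¹ := inv_pos.mpr hnorm
  have hiz : 0 < ‖z‖⁻¹ := inv_pos.mpr hznorm
  have hdot : ∀ (c : ℝ) (w : Fin R → ℝ) x, dot R (c • w) x = c * dot R w x := by
    intro c w x
    simp only [dot, Pi.smul_apply, smul_eq_mul, Finset.mul_sum, mul_assoc]
  have hrv : ∀ j, u ⬝ᵥ rv R s v' t j = dot R z (v' j) := by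
    intro j
    unfold dot dotProduct rv
    rw [← Equiv.sum_comp Fin.revPerm]
    refine Finset.sum_congr rfl fun k _ => ?_
    simp only [Fin.revPerm_apply, Fin.rev_rev, hz]
    ring
  refine ht (‖u‖⁻¹ • u, ‖z‖⁻¹ • z) ⟨by simp [norm_smul, hnorm.ne'], by simp [norm_smul, hznorm.ne']⟩
    ⟨?_, ?_, ?_, ?_⟩
  · intro j hj
    simp only
    rw [hdot]
    calc (0 : ℝ) ≤ _ := mul_nonneg hiu.le (h1 j hj)
      _ = _ := by ring
  · intro j hj
    simp only
    rw [hdot]
    have := h2 j hj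
    rw [hrv] at this
    calc (0 : ℝ) ≤ _ := mul_nonneg hiz.le this
      _ = _ := by ring
  · intro k
    simp only [Pi.smul_apply, smul_eq_mul, hz]
    calc (0 : ℝ) ≤ (‖z‖⁻¹ * ‖u‖⁻¹) * (t ^ (k : ℕ) * (sgn (s k.rev) * u k.rev) ^ 2) := by positivity
      _ = _ := by ring
  · intro k l hkl
    simp only [Pi.smul_apply, smul_eq_mul, hz]
    have e1 : t ^ (l : ℕ) = t ^ ((l : ℕ) - k) * t ^ (k : ℕ) := by
      rw [← pow_add]
      congr 1
      have : (k : ℕ) < l := hkl
      omega
    rw [e1]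
    ring

/-! ## The invariant for gluing -/

/-- first half of the invariant used for gluing -/
def Inv1 (i q F W : ℕ) : Prop :=
  23 + 2 * i ≤ 2 * q + 3 * W ∨ (F = q + 1 ∧ 2 * i + 21 ≤ 5 * q) ∨
    (q = F + 1 ∧ 2 * i + 23 ≤ 5 * q) ∨ (F = q + 1 ∧ 5 * q = 19 + 2 * i ∧ 24 + 2 * i ≤ 5 * W)

/-- second half of the invariant used for gluing -/
def Inv2 (i q F W : ℕ) : Prop :=
  (q ≤ 6 ∧ i + 8 ≤ q + W) ∨ (7 ≤ q ∧ 2 * i + 22 ≤ 2 * W + 3 * q) ∨
    (F = q + 1 ∧ 7 ≤ q ∧ 2 * i + 21 ≤ 2 * W + 3 * q) ∨ (F = q + 1 ∧ 2 * i + 21 ≤ 5 * q) ∨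
    (q = F + 1 ∧ 2 * i + 23 ≤ 5 * q)

/-- the invariant used for gluing -/
def InvG (i q F W : ℕ) : Prop := Inv1 i q F W ∧ Inv2 i q F W

theorem Inv1.mono {i q F W W' : ℕ} (h : Inv1 i q F W) (hW : W ≤ W') : Inv1 i q F W' := by
  unfold Inv1 at *
  omega

theorem Inv2.mono {i q F W W' : ℕ} (h : Inv2 i q F W) (hW : W ≤ W') : Inv2 i q F W' := by
  unfold Inv2 at *
  omega

theorem inv1_step (i q F W : ℕ) (y : Bool) (hF : F = q + 1 ∨ q = F + 1) (h : Inv1 i q F W)
    (q' G W' F' : ℕ)
    (e1 : q' = if y = decide (2 * i + 25 ≤ 5 * q) then q else q + 1)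
    (e2 : G = if (!y) = decide (2 * i + 25 ≤ 5 * q) then q else q + 1)
    (e3 : W' = if y = decide (2 * i + 25 ≤ 5 * W) then W else W + 1)
    (e4 : F' = if (!y) = decide (2 * i + 25 ≤ 5 * F) then F else F + 1) :
    (G = q' + 1 ∨ q' = G + 1) ∧ (Inv1 (i + 1) q' G W' ∨ Inv1 (i + 1) q' G F') := by
  unfold Inv1 at *
  by_cases c1 : 2 * i + 25 ≤ 5 * q <;> by_cases c2 : 2 * i + 25 ≤ 5 * W <;>
    by_cases c3 : 2 * i + 25 ≤ 5 * F <;> cases y <;>
    simp only [c1, c2, c3, decide_true, decide_false, Bool.not_true, Bool.not_false,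
      if_true, if_false, reduceCtorEq] at e1 e2 e3 e4 <;> subst e1 e2 e3 e4 <;>
    refine ⟨by omega, ?_⟩ <;> omega

theorem inv2_step (i q F W : ℕ) (y : Bool) (hF : F = q + 1 ∨ q = F + 1) (h : InvG i q F W)
    (q' G W' F' : ℕ)
    (e1 : q' = if y = decide (2 * i + 25 ≤ 5 * q) then q else q + 1)
    (e2 : G = if (!y) = decide (2 * i + 25 ≤ 5 * q) then q else q + 1)
    (e3 : W' = if y = decide (2 * i + 25 ≤ 5 * W) then W else W + 1)
    (e4 : F' = if (!y) = decide (2 * i + 25 ≤ 5 * F) then F else F + 1) :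
    Inv2 (i + 1) q' G W' ∨ Inv2 (i + 1) q' G F' := by
  have m1 : 2 * i + 22 < 5 * q ∨ 2 * i + 24 < 5 * W ∨ 2 * q + 3 * W ≠ 2 * i + 23 := by
    by_contra hcon
    simp only [not_or, not_lt, ne_eq, not_not] at hcon
    obtain ⟨h1, h2, h3⟩ := hcon
    obtain ⟨x, hx⟩ := Nat.exists_eq_add_of_le h1
    obtain ⟨y, hy⟩ := Nat.exists_eq_add_of_le h2
    have h4 : 2 * x + 3 * y = 1 := by omega
    omega
  obtain ⟨ha, hb⟩ := h
  unfold Inv1 at ha
  unfold Inv2 at hb
  unfold Inv2
  by_cases c1 : 2 * i + 25 ≤ 5 * q <;> by_cases c2 : 2 * i + 25 ≤ 5 * W <;>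
    by_cases c3 : 2 * i + 25 ≤ 5 * F <;> cases y <;>
    simp only [c1, c2, c3, decide_true, decide_false, Bool.not_true, Bool.not_false,
      if_true, if_false, reduceCtorEq] at e1 e2 e3 e4 <;> subst e1 e2 e3 e4 <;>
    rcases hF with hF | hF <;> rcases hb with hb | hb | hb | hb | hb <;> omega

theorem invG_step (i q F W : ℕ) (y : Bool) (hF : F = q + 1 ∨ q = F + 1) (h : InvG i q F W)
    (q' G W' F' : ℕ)
    (e1 : q' = if y = decide (2 * i + 25 ≤ 5 * q) then q else q + 1)
    (e2 : G = if (!y) = decide (2 * i + 25 ≤ 5 * q) then q else q + 1)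
    (e3 : W' = if y = decide (2 * i + 25 ≤ 5 * W) then W else W + 1)
    (e4 : F' = if (!y) = decide (2 * i + 25 ≤ 5 * F) then F else F + 1) :
    (G = q' + 1 ∨ q' = G + 1) ∧ (InvG (i + 1) q' G W' ∨ InvG (i + 1) q' G F') := by
  obtain ⟨h1, h2⟩ := inv1_step i q F W y hF h.1 q' G W' F' e1 e2 e3 e4
  have h3 := inv2_step i q F W y hF h q' G W' F' e1 e2 e3 e4
  refine ⟨h1, ?_⟩
  unfold InvG
  rcases le_total W' F' with hle | hle
  · right
    constructor
    · rcases h2 with h2 | h2
      · exact h2.mono hle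
      · exact h2
    · rcases h3 with h3 | h3
      · exact h3.mono hle
      · exact h3
  · left
    constructor
    · rcases h2 with h2 | h2
      · exact h2
      · exact h2.mono hle
    · rcases h3 with h3 | h3
      · exact h3
      · exact h3.mono hle
theorem invG_all {init : (ℕ → Bool) → ℕ × Bool}
    (hinit : ∀ σ σ' : ℕ → Bool, (∀ j < 10, σ j = σ' j) → init σ = init σ')
    (hE : ∀ σ, ∃ j < 10, 5 ≤ (st init σ 1).1 ∨
      23 ≤ 2 * (st init σ 1).1 + 3 * (st init (flipS j σ) 1).1)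
    (σ : ℕ → Bool) (i : ℕ) :
    ((st init (flipS (10 + i) σ) (i + 1)).1 = (st init σ (i + 1)).1 + 1 ∨
      (st init σ (i + 1)).1 = (st init (flipS (10 + i) σ) (i + 1)).1 + 1) ∧
    ∃ j < 10 + i, InvG i (st init σ (i + 1)).1 (st init (flipS (10 + i) σ) (i + 1)).1
      (st init (flipS j σ) (i + 1)).1 := by
  induction i with
  | zero =>
    obtain ⟨h1, -⟩ := inv_all hinit hE σ 0
    refine ⟨h1, ?_⟩
    obtain ⟨j, hj, h⟩ := hE σ
    refine ⟨j, by omega, ?_⟩
    simp only [zero_add] at h1 ⊢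
    unfold InvG Inv1 Inv2
    omega
  | succ i ih =>
    obtain ⟨hF, j, hj, hI⟩ := ih
    have e1 := st_fst init σ i
    have e2 := st_fst init (flipS j σ) i
    have e3 := st_fst init (flipS (10 + i) σ) i
    have e4 := st_fst init (flipS (10 + i + 1) σ) i
    have h4 : st init (flipS (10 + i + 1) σ) (i + 1) = st init σ (i + 1) :=
      st_congr hinit (i + 1) (fun l hl => flipS_ne (by omega) σ)
    rw [flipS_ne (by omega) σ, flipS_ne (by omega) σ] at e2
    rw [flipS_ne (by omega) σ, flipS_self] at e3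
    rw [flipS_self, flipS_ne (by omega) σ, h4] at e4
    have n1 : ((!(σ (10 + i + 1))) == σ (10 + i)) = !(σ (10 + i + 1) == σ (10 + i)) := by
      cases σ (10 + i + 1) <;> cases σ (10 + i) <;> rfl
    have n2 : (σ (10 + i + 1) == !(σ (10 + i))) = !(σ (10 + i + 1) == σ (10 + i)) := by
      cases σ (10 + i + 1) <;> cases σ (10 + i) <;> rfl
    rw [n1] at e4
    rw [n2] at e3
    have hs := invG_step i _ _ _ (σ (10 + i + 1) == σ (10 + i)) hF hI _ _ _ _ rfl rfl rfl rfl
    have a1 : i + 1 + 1 = i + 2 := rfl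
    have a2 : 10 + (i + 1) = 10 + i + 1 := rfl
    rw [a1, a2, e1, e4]
    refine ⟨hs.1, ?_⟩
    rcases hs.2 with h | h
    · exact ⟨j, by omega, by rw [e2]; exact h⟩
    · exact ⟨10 + i, by omega, by rw [e3]; exact h⟩

/-- arithmetic form of the gluing condition -/
def CondN (R x y : ℕ) (z : Bool) : Prop :=
  R ≤ x + y ∨ (x + y + 1 = R ∧ z ≠ decide (R ≤ x + 5))

theorem glue_arith (k q F W q' F' W' : ℕ) (z : Bool) (hF : F = q + 1 ∨ q = F + 1)
    (hI : InvG (10 + 5 * k) q F W) (hF' : F' = q' + 1 ∨ q' = F' + 1)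
    (hI' : 5 ≤ q' ∨ 23 ≤ 2 * q' + 3 * W') :
    CondN (14 + 2 * k) q q' z ∨ CondN (14 + 2 * k) F q' (!z) ∨ CondN (14 + 2 * k) W q' z ∨
      CondN (14 + 2 * k) q F' (!z) ∨ CondN (14 + 2 * k) q W' z := by
  unfold InvG Inv1 Inv2 at hI
  unfold CondN
  by_contra hcon
  simp only [not_or] at hcon
  obtain ⟨⟨a1, a2⟩, ⟨b1, b2⟩, ⟨c1, c2⟩, ⟨d1, d2⟩, ⟨f1, f2⟩⟩ := hcon
  cases z
  · simp only [Bool.not_false, ne_eq, not_and, not_not, eq_comm (a := false),
      eq_comm (a := true), decide_eq_false_iff_not, decide_eq_true_eq] at a2 b2 c2 d2 f2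
    rcases hF with hF | hF <;> rcases hF' with hF' | hF' <;> rcases hI' with hI' | hI' <;>
      rcases hI.1 with h | h | h | h <;> rcases hI.2 with h' | h' | h' | h' | h' <;> omega
  · simp only [Bool.not_true, ne_eq, not_and, not_not, eq_comm (a := false),
      eq_comm (a := true), decide_eq_false_iff_not, decide_eq_true_eq] at a2 b2 c2 d2 f2
    rcases hF with hF | hF <;> rcases hF' with hF' | hF' <;> rcases hI' with hI' | hI' <;>
      rcases hI.1 with h | h | h | h <;> rcases hI.2 with h' | h' | h' | h' | h' <;> omega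

/-! ## The glued vectors -/

/-- row signs used for gluing -/
def gs (k x : ℕ) : Bool := (bd (10 + 5 * k) x == decide (14 + 2 * k ≤ x + 5))

/-- the gluing condition for a left and a right sign vector -/
def Cond (k : ℕ) (σ ρ : ℕ → Bool) : Prop :=
  14 + 2 * k ≤ (st ini σ (11 + 5 * k)).1 + (st ini ρ 1).1 ∨
    ((st ini σ (11 + 5 * k)).1 + (st ini ρ 1).1 + 1 = 14 + 2 * k ∧
      ((st ini σ (11 + 5 * k)).2 == (st ini ρ 1).2) ≠ gs k (st ini σ (11 + 5 * k)).1)

theorem cond_of_condN (k : ℕ) (σ ρ : ℕ → Bool)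
    (h : CondN (14 + 2 * k) (st ini σ (11 + 5 * k)).1 (st ini ρ 1).1
      (σ (20 + 5 * k) == ρ 10)) : Cond k σ ρ := by
  have h1 := st_snd ini σ (10 + 5 * k)
  have a1 : 10 + 5 * k + 1 = 11 + 5 * k := by omega
  have a2 : 10 + (10 + 5 * k) = 20 + 5 * k := by omega
  rw [a1, a2] at h1
  have h2 := st_snd ini ρ 0
  simp only [zero_add, add_zero, bd] at h2
  unfold Cond
  unfold CondN at h
  rcases h with h | ⟨h, h3⟩
  · exact Or.inl h
  · refine Or.inr ⟨h, ?_⟩
    rw [h1, h2]
    unfold gs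
    revert h3
    generalize bd (10 + 5 * k) (st ini σ (11 + 5 * k)).1 = b
    generalize decide (14 + 2 * k ≤ (st ini σ (11 + 5 * k)).1 + 5) = c
    generalize σ (20 + 5 * k) = x
    generalize ρ 10 = y
    cases b <;> cases c <;> cases x <;> cases y <;> simp

theorem glue_comb (k : ℕ) (σ ρ : ℕ → Bool) :
    Cond k σ ρ ∨ (∃ j < 21 + 5 * k, Cond k (flipS j σ) ρ) ∨
      (∃ j < 11, Cond k σ (flipS j ρ)) := by
  obtain ⟨hF, j, hj, hI⟩ := invG_all ini_congr ini_hE σ (10 + 5 * k)
  obtain ⟨hF', -⟩ := invG_all ini_congr ini_hE ρ 0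
  obtain ⟨l, hl, hI'⟩ := ini_hE ρ
  have a1 : 10 + 5 * k + 1 = 11 + 5 * k := by omega
  have a2 : 10 + (10 + 5 * k) = 20 + 5 * k := by omega
  rw [a1, a2] at hF hI
  simp only [zero_add, add_zero] at hF'
  have n1 : ((!(σ (20 + 5 * k))) == ρ 10) = !(σ (20 + 5 * k) == ρ 10) := by
    cases σ (20 + 5 * k) <;> cases ρ 10 <;> rfl
  have n2 : (σ (20 + 5 * k) == !(ρ 10)) = !(σ (20 + 5 * k) == ρ 10) := by
    cases σ (20 + 5 * k) <;> cases ρ 10 <;> rfl
  rcases glue_arith k _ _ _ _ _ _ (σ (20 + 5 * k) == ρ 10) hF hI hF' hI' with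
    h | h | h | h | h
  · exact Or.inl (cond_of_condN k σ ρ h)
  · refine Or.inr (Or.inl ⟨20 + 5 * k, by omega, cond_of_condN k _ ρ ?_⟩)
    rw [flipS_self, n1]
    exact h
  · refine Or.inr (Or.inl ⟨j, by omega, cond_of_condN k _ ρ ?_⟩)
    rw [flipS_ne (by omega) σ]
    exact h
  · refine Or.inr (Or.inr ⟨10, by omega, cond_of_condN k σ _ ?_⟩)
    rw [flipS_self, n2]
    exact h
  · refine Or.inr (Or.inr ⟨l, by omega, cond_of_condN k σ _ ?_⟩)
    rw [flipS_ne (by omega) ρ]
    exact h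

theorem cond_congr (k : ℕ) {σ σ' ρ ρ' : ℕ → Bool} (h : ∀ j < 21 + 5 * k, σ j = σ' j)
    (h' : ∀ j < 11, ρ j = ρ' j) (hc : Cond k σ ρ) : Cond k σ' ρ' := by
  have e1 : st ini σ (11 + 5 * k) = st ini σ' (11 + 5 * k) :=
    st_congr ini_congr _ (fun j hj => h j (by omega))
  have e2 : st ini ρ 1 = st ini ρ' 1 := st_congr ini_congr _ (fun j hj => h' j (by omega))
  unfold Cond at *
  rw [← e1, ← e2]
  exact hc

/-- For every `k` there are `32 + 5k` vectors in `ℝ^(14+2k)` such that every sign vector, or one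
obtained from it by changing one sign, is not realised by any nonzero functional, even weakly. -/
theorem exists_vectors_odd (k : ℕ) : ∃ w : Fin (32 + 5 * k) → Fin (14 + 2 * k) → ℝ,
    ∀ s : Fin (32 + 5 * k) → Bool,
    (∀ u : Fin (14 + 2 * k) → ℝ, (∀ j, 0 ≤ sgn (s j) * (u ⬝ᵥ w j)) → u = 0) ∨
    ∃ i, ∀ u : Fin (14 + 2 * k) → ℝ,
      (∀ j, 0 ≤ sgn (Function.update s i (!(s i)) j) * (u ⬝ᵥ w j)) → u = 0 := by
  obtain ⟨v, hv⟩ := exists_config ini_congr ini_dead (11 + 5 * k)
  obtain ⟨v', hv'⟩ := exists_config ini_congr ini_dead 1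
  set lf : (Fin (32 + 5 * k) → Bool) → ℕ → Bool := fun s j =>
    if h : j < 32 + 5 * k then s ⟨j, h⟩ else true with hlf
  set rt : (Fin (32 + 5 * k) → Bool) → ℕ → Bool := fun s j =>
    if h : 21 + 5 * k + j < 32 + 5 * k then s ⟨21 + 5 * k + j, h⟩ else true with hrt
  have hev : ∀ᶠ t : ℝ in nhds 0, ∀ s : Fin (32 + 5 * k) → Bool, Cond k (lf s) (rt s) → 0 < t →
      ∀ u : Fin (14 + 2 * k) → ℝ,
      (∀ j < 10 + (11 + 5 * k), 0 ≤ sgn (lf s j) * dot (14 + 2 * k) u (v j)) →
      (∀ j < 10 + 1, 0 ≤ sgn (rt s j) * (u ⬝ᵥ rv (14 + 2 * k) (gs k) v' t j)) → u = 0 := by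
    rw [Filter.eventually_all]
    intro s
    by_cases hs : Cond k (lf s) (rt s)
    · have h2 := meet (14 + 2 * k) (gs k) v v' (10 + (11 + 5 * k)) (10 + 1) (lf s) (rt s) _ _ _ _
        (hv (lf s)) (hv' (rt s)) hs
      filter_upwards [h2] with t ht _
      exact ht
    · exact Filter.Eventually.of_forall fun t h => absurd h hs
  have hex : ∃ t : ℝ, 0 < t ∧ _ :=
    (((hev.filter_mono nhdsWithin_le_nhds).and
      (self_mem_nhdsWithin : Set.Ioi (0 : ℝ) ∈ nhdsWithin 0 (Set.Ioi 0))).exists).imp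
      fun t ht => ⟨ht.2, ht.1⟩
  obtain ⟨t, ht0, ht⟩ := hex
  set w : Fin (32 + 5 * k) → Fin (14 + 2 * k) → ℝ := fun j =>
    if (j : ℕ) < 21 + 5 * k then (fun i => v j i) else
      rv (14 + 2 * k) (gs k) v' t ((j : ℕ) - (21 + 5 * k)) with hw
  have hdead : ∀ s : Fin (32 + 5 * k) → Bool, Cond k (lf s) (rt s) →
      ∀ u : Fin (14 + 2 * k) → ℝ, (∀ j, 0 ≤ sgn (s j) * (u ⬝ᵥ w j)) → u = 0 := by
    intro s hs u hu
    apply ht s hs ht0 u
    · intro j hj
      have hj' : j < 32 + 5 * k := by omega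
      have h1 := hu ⟨j, hj'⟩
      have h2 : w ⟨j, hj'⟩ = fun i : Fin (14 + 2 * k) => v j i := by
        simp only [hw]
        rw [if_pos (by omega)]
      rw [h2] at h1
      have h3 : lf s j = s ⟨j, hj'⟩ := by simp only [hlf, dif_pos hj']
      rw [h3]
      exact h1
    · intro j hj
      have hj' : 21 + 5 * k + j < 32 + 5 * k := by omega
      have h1 := hu ⟨21 + 5 * k + j, hj'⟩
      have h2 : w ⟨21 + 5 * k + j, hj'⟩ = rv (14 + 2 * k) (gs k) v' t j := by
        simp only [hw]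
        rw [if_neg (by omega)]
        congr 1
        omega
      rw [h2] at h1
      have h3 : rt s j = s ⟨21 + 5 * k + j, hj'⟩ := by simp only [hrt, dif_pos hj']
      rw [h3]
      exact h1
  refine ⟨w, fun s => ?_⟩
  rcases glue_comb k (lf s) (rt s) with h | ⟨j, hj, h⟩ | ⟨j, hj, h⟩
  · exact Or.inl (hdead s h)
  · have hj' : j < 32 + 5 * k := by omega
    refine Or.inr ⟨⟨j, hj'⟩, hdead _ (cond_congr k ?_ ?_ h)⟩
    · intro l hl
      have hl' : l < 32 + 5 * k := by omega
      simp only [hlf, dif_pos hl', flipS]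
      by_cases hlj : l = j
      · subst hlj
        rw [if_pos rfl, Function.update_self]
      · rw [if_neg hlj, Function.update_of_ne]
        intro h5
        exact hlj (by simpa using h5)
    · intro l hl
      have hl' : 21 + 5 * k + l < 32 + 5 * k := by omega
      simp only [hrt, dif_pos hl']
      rw [Function.update_of_ne]
      intro h5
      have : 21 + 5 * k + l = j := by simpa using h5
      omega
  · have hj' : 21 + 5 * k + j < 32 + 5 * k := by omega
    refine Or.inr ⟨⟨21 + 5 * k + j, hj'⟩, hdead _ (cond_congr k ?_ ?_ h)⟩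
    · intro l hl
      have hl' : l < 32 + 5 * k := by omega
      simp only [hlf, dif_pos hl']
      rw [Function.update_of_ne]
      intro h5
      have : l = 21 + 5 * k + j := by simpa using h5
      omega
    · intro l hl
      have hl' : 21 + 5 * k + l < 32 + 5 * k := by omega
      simp only [hrt, dif_pos hl', flipS]
      by_cases hlj : l = j
      · subst hlj
        rw [if_pos rfl, Function.update_self]
      · rw [if_neg hlj, Function.update_of_ne]
        intro h5
        exact hlj (by simpa using h5)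

end Pool.Agent.MP1e71f9co.EvenDimTable
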