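import Mathlib

/-!
# The McMullen problem in dimension six: `ν(6) ≤ 14`

For every `n ≥ 15` there are `n` points in general position in `ℝ^6` which no permissible
projective transformation maps onto the vertex set of a convex polytope.
-/

namespace Pool.Agent.Results.MP_1e71f9_co.NuSixLeFourteen

/-- A finite set `S ⊆ ℝ^d` is in general position: no `d + 1` of its points lie on a common
affine hyperplane `{x | ⟨u, x⟩ = t}`, `u ≠ 0`. -/
def GeneralPosition {d : ℕ} (S : Finset (Fin d → ℝ)) : Prop :=
  ∀ F ⊆ S, F.card = d + 1 →
    ¬ ∃ (u : Fin d → ℝ) (t : ℝ), u ≠ 0 ∧ ∀ x ∈ F, u ⬝ᵥ x = t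

/-- The projective map `x ↦ (A x + b) / (⟨c, x⟩ + δ)`. -/
noncomputable def projMap {d : ℕ} (A : Matrix (Fin d) (Fin d) ℝ) (b c : Fin d → ℝ) (δ : ℝ)
    (x : Fin d → ℝ) : Fin d → ℝ :=
  (c ⬝ᵥ x + δ)⁻¹ • (A.mulVec x + b)

/-- The `(d+1) × (d+1)` matrix `(A, b; cᵀ, δ)` of the projective map. -/
def projMatrix {d : ℕ} (A : Matrix (Fin d) (Fin d) ℝ) (b c : Fin d → ℝ) (δ : ℝ) :
    Matrix (Fin d ⊕ Unit) (Fin d ⊕ Unit) ℝ :=
  Matrix.fromBlocks A (Matrix.of fun i _ => b i) (Matrix.of fun _ j => c j)
    (Matrix.of fun _ _ => δ)

/-- `S` can be mapped onto the vertex set of a convex polytope by a projective transformation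
(invertible matrix) which is permissible for `S` (the denominator vanishes at no point of `S`):
every point of the image `T(S)` is an extreme point of `conv T(S)`. -/
def MapsToVertices {d : ℕ} (S : Finset (Fin d → ℝ)) : Prop :=
  ∃ (A : Matrix (Fin d) (Fin d) ℝ) (b c : Fin d → ℝ) (δ : ℝ),
    (projMatrix A b c δ).det ≠ 0 ∧ (∀ x ∈ S, c ⬝ᵥ x + δ ≠ 0) ∧
    ∀ x ∈ S, projMap A b c δ x ∈
      (convexHull ℝ (projMap A b c δ '' (S : Set (Fin d → ℝ)))).extremePoints ℝ

/-- Integer homogeneous coordinates `(s x, s)` of the fifteen points `x ∈ ℝ^6` (last entry `s`). -/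
def rows : List (List ℤ) :=
  [[-2, 3, 3, 0, -2, 1, -1],
   [-2, -1, 0, -1, -2, 2, -1],
   [2, -2, 0, 3, 2, 3, -3],
   [1, -2, -2, -2, -3, -1, -3],
   [-2, 1, 3, 0, 1, 1, 2],
   [3, 2, 1, -3, 1, 0, 3],
   [-2, 0, -1, 2, 1, 1, 3],
   [270, 208, -594, 35, -1389, 208, -1581],
   [-1140, 625, 1400, 118, 1086, -801, 1370],
   [1084, -1795, -1875, -444, -171, -523, -626],
   [923, 297, 113, 479, 710, -839, -246],
   [-746, -1485, -787, -81, -980, -822, -1374],
   [651, -48, 433, -309, 1392, 893, 1855],
   [245, 543, -138, 204, 638, -769, 1207],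
   [1277, 752, -61, -1887, -193, -1116, 1245]]

/-- Ninety-three integer linear dependencies among the rows. -/
def circs : List (List ℤ) :=
  [[0, 0, 928730657635, 0, -160843051216, 0, 1204442246708, 444294199, 1719589800, 0, 0, 0, -1448076843, -2489296414, 2836872091],
   [0, 0, 0, -616750919, 898449418, 628678267, 5177903, -4978519, -4063698, 0, 0, 0, -4213710, -29876, 0],
   [0, 0, 0, -413702414793744, 0, 0, -49940352037874, 423831648836, -150963070098, 0, 0, 656508188165, 242384503799, -115912658627, 303563557856],
   [0, 0, 0, 1648824155, 121580186, -2320688473, -147878657, -2337767, 0, 0, 0, -4792380, 0, -444562, 1899486],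
   [0, 0, 0, 25897572, -44363459, -4811822, 473108, -143726, -68616, -115001, 0, 18764, 0, 0, 0],
   [0, -929403725531, 0, 12867931029, 0, 0, -284844301173, 10600540, -9593199, 0, -2132931410, 0, -46536881, 0, -357220968],
   [0, 0, -1798567893845, 32952558693, 0, 0, 2108893687550, 216221053, -748798817, 0, 8565789892, 0, 2250792676, -10210325853, 0],
   [0, -150554, -18285, -1244, 0, -1625, 16235, 0, 1, 0, -178, 0, 0, -247, 0],
   [-56292, 0, 0, 20122, 23209, 1424, 462, 76, 12, -89, 0, 0, 0, 0, 0],
   [0, 0, 0, 0, 169221350477, -10455340426, 2939292376, 13934270, 0, 311546927, 0, -264684788, -252724392, 5211888, 0],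
   [-3267361732, 0, -354108142, 0, 2583044989, 0, -355175570, 5983908, 0, -2861475, 378938, 0, -359976, 0, 0],
   [0, -5997554251, -6301402723, 7745384560, 0, 12940167637, 0, -2659650, 414709, 958896, 0, 0, 0, 0, -35870603],
   [-112414342186, 0, 10869963465, 0, 0, -389662347450, 0, 7614941863, 5073123004, 1906400088, 0, 0, 3976977963, 0, -4546591],
   [0, 0, 6772830, 4148545, 2213182, 14463037, 11382485, -22711, 0, 0, 0, 0, -38202, -11798, 0],
   [0, 16315575661, -805842970, 0, 0, 3750910847, 5629630306, 0, 0, 90827, 39540283, 2955347, -215182, 0, 0],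
   [0, 51268767740, 10563649228, 0, 0, 0, -11508181858, 0, 1106602, 0, 38470968, 158211, -4517595, 111043575, 0],
   [0, 1078132083, 0, 0, 5169559, -2045811, 11433690, 0, -94690, 0, 1855079, 0, 165535, 1092491, 0],
   [0, 0, 1010197567, -15694914067, 100798795, 10261461686, 0, 14551814, -4951030, 0, -1810537, 33257784, 0, 0, 0],
   [-30435864, 0, 1232228, 28704510, -2539617, 0, 3341550, 0, 0, -82023, 0, -7064, 0, 0, -5320],
   [-352524373391, 0, -576191854919, 0, 0, 0, -904716575857, -20278067061, -15104378443, -7033061934, 0, 0, -8779816832, 953013824, 0],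
   [-1795514181902, 0, 0, 710393178434, 546040834701, 0, 0, 1750765642, 0, -3369356831, -13836566, 130831118, 0, 0, 63200762],
   [0, -12373459, 0, -76646716, 0, -114404068, 190786657, 0, 0, -12570, 398960, 0, 0, -818767, 487603],
   [0, 27902644947, 0, 0, 0, 233232282, 4737301293, 0, -644948, 0, 56506978, 0, 2754402, 13446415, 5169559],
   [0, 0, -1543782979785, 0, 88903579369, -101134018164, 0, 0, -1535680481, 0, 3892657309, 0, 2401839451, -2731968281, -2090124139],
   [-3083754595, 0, 0, 0, 2595997468, 107812533, -12604890, 13724791, 5948710, 0, 0, 0, 2693362, -6957, 0],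
   [0, 0, 0, -11675498678, 15572480605, 6316654428, -142801514, 0, -12831036, 24892595, 0, 0, -27566184, -328468, 0],
   [0, 0, 0, -1109257193128, 0, 10946347028009, 2634942418805, 0, 0, -122944323, 2210958951, 10924518962, -7279602633, 0, -12121088535],
   [0, 0, 24505917290, 0, 11558380819, 0, -218246051408, -39976051, -91890351, 0, -482692281, 0, 0, 782047567, -236824840],
   [0, 0, 0, 0, 154634242738711, 0, 61124327345562, 8561170738656, 5840873243430, 2786191972905, 0, 0, 3970685122378, 232350468834, -691838245826],
   [0, 354171707, 56646885, 0, 0, -2145570, -63100995, 2813, 0, 0, 338906, 0, -8119, 681633, 0],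
   [0, -30347753, -3224740, 0, 0, -67698, 1012381, 0, 0, 0, -41534, 0, -102, -40913, -2813],
   [0, 0, -4647018627655, 602959803378, 0, 0, -2203148200448, 1463387633, -3888209650, 0, 7223933624, 0, 8952385205, 0, -10210325853],
   [-13580288812, 0, 0, 0, 21138762320, 3556949316, 253191118, 0, -15400802, 0, 0, -13724791, -35121557, 85741, 0],
   [3490398700211, 0, 0, -1967298900349, 0, 0, -36490594143, -115888431, 1561713749, 9265020475, 5169901, -856172452, 0, 0, 0],
   [0, 0, 0, -584453707021, 0, 433358772044, -6890995144, 463257078, -277423737, -33819300, 0, 1292400185, 0, 0, -133090377],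
   [0, 0, 52276702130, 0, 2096587406383, 0, 122724730956, 44227062, 0, 3833254257, 0, -3187053953, -3384848003, -29078571, 0],
   [0, 0, 2612216435, -10210381709, 1986182552, -14242332950, 0, -2784257, -9853113, 0, 0, 0, 0, -15612409, 35261984],
   [39841401650, 0, 0, 0, -38222907089, -4226227276, 0, -125233022, -41197354, 6692159, 65146, 6100304, 0, 0, 0],
   [0, 0, -19762300019, 44677093284, 0, 3116566488, 0, -37775103, 0, 0, 38107344, -64589338, 9640065, 0, -73559375],
   [0, 0, 0, 0, 3770102212, 473984982378, 70414855268, -45218570, 0, 0, 0, 396244765, -329764831, 182001359, -623093854],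
   [57204163, 0, 0, -34251641, 0, 1083572, -724155, 0, 24806, 151810, 0, -9921, 425, 0, 0],
   [33875105400, 0, -143665219, 0, -20169632704, 0, 0, -202592799, -101329572, 0, 0, -13006718, -68685799, 0, 1483213],
   [0, -962937320, 0, -11087669, 0, -46536881, -312267001, 39495, -22462, 0, -2223954, 0, 0, 0, -300134],
   [0, 0, 238852659, -4279589417, 0, 2949470326, 231042508, 4106019, -1196337, 0, 0, 9226888, 0, -708705, 0],
   [0, 503718942529, -269208321223, 0, 0, -16160953567, 0, -1060854074, -1034967839, -342857824, 1549076912, 0, 0, 0, -279745855],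
   [0, 76361427, 80026331, -59008605, 0, -195371289, 0, 0, 11442, -10692, 0, -88655, 0, 0, 466946],
   [-14916842200, 0, 0, 0, 12920959321, 1935463686, 0, 42528142, 12546760, -6302445, 0, 0, -188396, -93684, 0],
   [0, 0, 2711152732, 11435766062, -12601524741, 0, 3000869326, -23919752, 0, -26085059, -2875440, 0, 2041760, 0, 0],
   [-230794147643, 0, 0, 83103320857, 0, 0, -3453312183, 0, -158453344, -628942954, 0, 129621112, 0, -15224957, 39128092],
   [0, 0, 0, -18242963113383, 0, 0, 269581599385554, -31873982778, 68823013891, 0, 525206550532, 0, -110515515213, -929403725531, 359713578769],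
   [-260135087634, 0, -2634464972, 0, 740026633663, 0, 0, 0, -320963640, 607778397, 0, -827429254, -1151190350, 0, 56761460],
   [0, 0, -2611455, -7769523, 1622734, -12195771, -6155943, 0, -13116, 0, 0, 0, 11239, 0, 14287],
   [319643919, 0, 0, -146514607, -85591197, 0, -3311631, -278788, 0, 624487, 0, -8596, 0, -355, 0],
   [-8906535, 0, 0, -954687, 8990168, 1486017, 0, 31293, 10461, 0, 0, 0, 653, 0, -223],
   [0, -483652392264, -41259781378, 0, 0, -34524545574, 0, 0, 3337072, 0, -708838916, -28776881, 7311057, -609698183, 0],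
   [-11748608265, 0, -316906688, 12256475187, 0, 0, 436521123, 0, 0, -29665806, 0, -5826232, 0, 2539617, -5526764],
   [0, 0, 0, 230892879688, -504886619165, -90514963294, 0, -389625830, 0, -963805247, -435696, 316747668, 641380248, 0, 0],
   [22281437537, 0, 0, 0, 0, 10726174721, 898777108, -308264769, -186060668, -26932708, 0, -24325847, -159213203, 0, 0],
   [0, -52821027617, 0, 0, 254859254, 0, -9413994717, -1509104, 0, 0, -107951636, 0, -6458964, -23585997, -10908499],
   [0, 0, 5027732, 8414962, 0, -252786332, -30062018, 0, 0, 0, 0, -229531, 149757, -108501, 342698],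
   [0, 0, 0, 493968383905, 0, -342829404811, 7011884517, -736986317, 0, -72184178, 0, -1081820058, -184949158, 0, 108959822],
   [0, 4820650, 770825, 9807, 3293, 0, -818396, 0, 0, 0, 4681, 0, -166, 9172, 0],
   [1381252301, 0, 103793365, 0, -1097477104, 0, 170345747, -2989537, -349919, 1061562, 0, 0, 0, -170656, 0],
   [0, 161333096345, 0, -6527974512, 0, 0, 48573305667, 2625098, 0, 0, 369567074, 6852285, 10751975, 0, 64709367],
   [-9084960, 0, 42716, 4637926, 2083007, 0, 195158, 7064, 0, -18487, 0, 0, 0, 0, -160],
   [0, 0, -6955147511066, 0, 477336770273, 0, -3849226693774, -23853240008, -24709433420, -7038428103, 10280430418, 0, 0, 0, -12859080136],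
   [0, 513983983, 57202034, -560226, 0, 0, -22064729, 0, 0, -168, 687934, 0, 0, 712615, 47473],
   [0, 0, -1456440943, 4889682693, 125320845, -986201454, 0, -5140866, 0, 0, 2788953, -8537186, 0, 0, -4951030],
   [-1529653495854, 0, 0, 0, 2382441948916, 208982373576, 0, 0, -1747357884, 0, 0, -1711114377, -3836298497, -64262301, 253191118],
   [3091342586245, 0, 0, -2035178722890, 0, 343635947673, 0, 304329608, 1378328861, 8242543605, 34982421, 0, 0, 0, -227975006],
   [0, -2577270466698, -28806724534, 0, -11508181858, 0, 0, 0, 208786256, 0, -4308265966, -4145993, -357548569, -2758068661, 0],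
   [0, 0, 0, 1364929156742, -3490398700211, 0, -4675342862, -10940905112, -5845186008, -9137917289, -28870932, 2858437936, 0, 0, 0],
   [0, 0, 0, 1156241737223, -12531425204, -940058156980, 0, -1063471186, 443635971, 0, 0, -2612216435, 0, -36447632, 385253187],
   [0, 0, 0, 0, -1776635741308753, 289656318796362, 0, -166044670710, 0, -3274026524067, 8086785000, 2930949209028, 2527666035200, 0, -230892879688],
   [-39926918902, 0, 0, 6265890096, 25767163021, 0, 0, 144058078, 61026022, -22244679, 1002, 0, 31030552, 0, 0],
   [-505839, 2677, 0, -205156, 820388, 254882, 0, 0, -787, 0, 0, -137, -1420, 0, 0],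
   [-4189875939468, 0, -21604832758, 2220079900989, 0, 0, 0, 0, -2151806199, -11208450780, 0, 1250098615, -13405050, 0, 63883883],
   [-164439, 202, 977, 112887, 0, -9909, 4000, 0, -55, -432, 0, 0, 0, 0, 0],
   [178471325785544, 0, 508244745055, 0, 0, 0, 0, -1728263941013, -989010236876, 0, 0, -247810760698, -856980094269, -15127224528, 56240516847],
   [0, 0, 12170117035, 2478310205, 2293889949, 11139356774, 0, -21285772, 0, 0, -34147455, 0, -40271224, 31971394, 0],
   [-3970685122378, 0, 0, 0, 3121360190487, 0, -95578165956, 9739829956, 2242713892, -2725227051, 0, 0, 0, -281932002, 830346920],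
   [-35664758, 0, 2345707, 25682113, 0, 225782, 2984576, 11356, 0, -89675, -2459, 0, 0, 0, 0],
   [0, 176055708, 20140313, 90584310, 0, 0, -117829230, -70443, 0, 0, 0, -131219, 0, 682749, -204037],
   [-1019892826, 0, 2245936117, -1128303421, 0, -2957617174, 0, 0, 0, -2998161, -4379233, 0, -1835716, 0, 9363028],
   [0, 0, 0, 195240760859, 0, -3028182425434, -753268083094, 0, -122944323, 0, -631137696, -2847112225, 2026506180, 0, 3431442969],
   [-25847795, -8128063763, 0, 0, 0, 54720522, -46806366, 0, 700543, 0, -13919676, 0, -1345601, -8339311, 0],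
   [-26565285522186, 0, 0, 9894130902710, 0, 0, 0, 53312378636, 18534073194, -56695394828, 0, 15865326419, 26214541929, -255208291, 0],
   [0, -12666997, 2268595, -1566, -111501, 0, -2777473, 0, 2293, 0, -32571, 0, -4563, 0, 0],
   [-178461374, 0, -21498098, 30665782, 107558079, 0, 0, 269700, 0, -224077, 58414, 0, 0, -54334, 0],
   [0, 0, 15301154505498, 0, 3144670253423, 0, 0, 248104469841, 183797531869, 79815372504, -41689701845, 0, 93189834584, 38861876179, 0],
   [60795988187, 0, 0, 0, -42513540394, 0, 430995657, -324519158, -154440113, 0, 0, -12786114, -94634839, 0, 825505],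
   [-7569831, 0, 0, 35121557, 6149070, -19360864, 1294265, 0, 27708, 0, 0, -72028, 0, 2295, 0],
   [0, 80421525608, 28829117785, 0, 0, 0, -33414943324, -1514763, 6639256, 0, 0, 0, -22105809, 247296366, -1459719]]

/-! ## Bit sets of sign vectors -/

/-- Sign vectors (lists of booleans) matching a pattern exactly on its support. -/
def exactB : List (Option Bool) → List Bool → Bool
  | [], [] => true
  | none :: p, _ :: σ => exactB p σ
  | some a :: p, b :: σ => (a == b) && exactB p σ
  | _, _ => false

/-- Sign vectors matching a pattern on its support with at most one exception. -/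
def ballB : List (Option Bool) → List Bool → Bool
  | [], [] => true
  | none :: p, _ :: σ => ballB p σ
  | some a :: p, b :: σ => if a == b then ballB p σ else exactB p σ
  | _, _ => false

/-- index of a sign vector -/
def idx : List Bool → ℕ
  | [] => 0
  | b :: σ => (if b then 2 ^ σ.length else 0) + idx σ

/-- bit set of the sign vectors matching exactly -/
def exactN : List (Option Bool) → ℕ
  | [] => 1
  | none :: p => Nat.lor (exactN p) (Nat.shiftLeft (exactN p) (2 ^ p.length))
  | some true :: p => Nat.shiftLeft (exactN p) (2 ^ p.length)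
  | some false :: p => exactN p

/-- bit set of the sign vectors matching with at most one exception -/
def ballN : List (Option Bool) → ℕ
  | [] => 1
  | none :: p => Nat.lor (ballN p) (Nat.shiftLeft (ballN p) (2 ^ p.length))
  | some true :: p => Nat.lor (Nat.shiftLeft (ballN p) (2 ^ p.length)) (exactN p)
  | some false :: p => Nat.lor (Nat.shiftLeft (exactN p) (2 ^ p.length)) (ballN p)

theorem idx_lt (σ : List Bool) : idx σ < 2 ^ σ.length := by
  induction σ with
  | nil => simp [idx]
  | cons b σ ih =>
    simp only [idx, List.length_cons, pow_succ]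
    split_ifs <;> omega

theorem testBit_high {x k i : ℕ} (hx : x < 2 ^ (2 ^ k)) : x.testBit (2 ^ k + i) = false := by
  apply Nat.testBit_lt_two_pow
  exact lt_of_lt_of_le hx (Nat.pow_le_pow_right (by norm_num) (by omega))

theorem shiftLeft_lt {x k : ℕ} (hx : x < 2 ^ (2 ^ k)) :
    Nat.shiftLeft x (2 ^ k) < 2 ^ (2 ^ (k + 1)) := by
  have : Nat.shiftLeft x (2 ^ k) = x * 2 ^ (2 ^ k) := Nat.shiftLeft_eq x _
  rw [this, pow_succ 2 k, mul_two, pow_add]
  exact Nat.mul_lt_mul_of_pos_right hx (by positivity)

theorem lt_two_pow_two_pow_succ {x k : ℕ} (hx : x < 2 ^ (2 ^ k)) : x < 2 ^ (2 ^ (k + 1)) :=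
  lt_of_lt_of_le hx (Nat.pow_le_pow_right (by norm_num)
    (Nat.pow_le_pow_right (by norm_num) (Nat.le_succ k)))

theorem exactN_lt (p : List (Option Bool)) : exactN p < 2 ^ (2 ^ p.length) := by
  induction p with
  | nil => simp [exactN]
  | cons o p ih =>
    rcases o with _ | _ | _
    · exact Nat.or_lt_two_pow (lt_two_pow_two_pow_succ ih) (shiftLeft_lt ih)
    · exact lt_two_pow_two_pow_succ ih
    · exact shiftLeft_lt ih

theorem ballN_lt (p : List (Option Bool)) : ballN p < 2 ^ (2 ^ p.length) := by
  induction p with
  | nil => simp [ballN]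
  | cons o p ih =>
    rcases o with _ | _ | _
    · exact Nat.or_lt_two_pow (lt_two_pow_two_pow_succ ih) (shiftLeft_lt ih)
    · exact Nat.or_lt_two_pow (shiftLeft_lt (exactN_lt p)) (lt_two_pow_two_pow_succ ih)
    · exact Nat.or_lt_two_pow (shiftLeft_lt ih) (lt_two_pow_two_pow_succ (exactN_lt p))

theorem testBit_shift_low {x k i : ℕ} (hi : i < 2 ^ k) :
    (Nat.shiftLeft x (2 ^ k)).testBit i = false := by
  change (x <<< (2 ^ k)).testBit i = false
  rw [Nat.testBit_shiftLeft]
  simp [not_le.mpr hi]

theorem testBit_shift_high {x k i : ℕ} :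
    (Nat.shiftLeft x (2 ^ k)).testBit (2 ^ k + i) = x.testBit i := by
  change (x <<< (2 ^ k)).testBit (2 ^ k + i) = _
  rw [Nat.testBit_shiftLeft]
  simp

theorem testBit_lor' (x y i : ℕ) : (Nat.lor x y).testBit i = (x.testBit i || y.testBit i) :=
  Nat.testBit_or x y i

theorem exactN_spec (p : List (Option Bool)) (σ : List Bool) (h : p.length = σ.length) :
    (exactN p).testBit (idx σ) = exactB p σ := by
  induction p generalizing σ with
  | nil =>
    cases σ with
    | nil => simp [exactN, idx, exactB]
    | cons b σ => simp at h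
  | cons o p ih =>
    cases σ with
    | nil => simp at h
    | cons b σ =>
      have h' : p.length = σ.length := by simpa using h
      have hi := ih σ h'
      have hlt : idx σ < 2 ^ p.length := h' ▸ idx_lt σ
      rcases o with _ | _ | _ <;> rcases b with _ | _ <;>
        simp only [exactN, idx, exactB, testBit_lor', ← h', if_true, if_false, Bool.false_eq_true,
          zero_add, testBit_shift_low hlt, testBit_shift_high, testBit_high (exactN_lt p), hi,
          Bool.or_false, Bool.false_or] <;> simp

theorem ballN_spec (p : List (Option Bool)) (σ : List Bool) (h : p.length = σ.length) :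
    (ballN p).testBit (idx σ) = ballB p σ := by
  induction p generalizing σ with
  | nil =>
    cases σ with
    | nil => simp [ballN, idx, ballB]
    | cons b σ => simp at h
  | cons o p ih =>
    cases σ with
    | nil => simp at h
    | cons b σ =>
      have h' : p.length = σ.length := by simpa using h
      have hi := ih σ h'
      have he := exactN_spec p σ h'
      have hlt : idx σ < 2 ^ p.length := h' ▸ idx_lt σ
      rcases o with _ | _ | _ <;> rcases b with _ | _ <;>
        simp only [ballN, idx, ballB, testBit_lor', ← h', if_true, if_false, Bool.false_eq_true,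
          zero_add, testBit_shift_low hlt, testBit_shift_high, testBit_high (exactN_lt p),
          testBit_high (ballN_lt p), hi, he,
          Bool.or_false, Bool.false_or] <;> simp

theorem exactB_imp (p : List (Option Bool)) (σ : List Bool) (h : exactB p σ = true) :
    ∀ (j : ℕ) (a : Bool), p[j]? = some (some a) → σ[j]? = some a := by
  induction p generalizing σ with
  | nil => intro j a hj; simp at hj
  | cons o p ih =>
    cases σ with
    | nil => rcases o with _ | a <;> simp [exactB] at h
    | cons b σ =>
      intro j a hj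
      rcases o with _ | a'
      · simp only [exactB] at h
        cases j with
        | zero => simp at hj
        | succ j => simpa using ih σ h j a (by simpa using hj)
      · simp only [exactB, Bool.and_eq_true, beq_iff_eq] at h
        cases j with
        | zero => simp at hj; simp [← hj, h.1]
        | succ j => simpa using ih σ h.2 j a (by simpa using hj)

theorem ballB_imp (p : List (Option Bool)) (σ : List Bool) (h : ballB p σ = true) :
    ∃ i : ℕ, ∀ (j : ℕ) (a : Bool), j ≠ i → p[j]? = some (some a) → σ[j]? = some a := by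
  induction p generalizing σ with
  | nil => exact ⟨0, by intro j a _ hj; simp at hj⟩
  | cons o p ih =>
    cases σ with
    | nil => rcases o with _ | a <;> simp [ballB] at h
    | cons b σ =>
      rcases o with _ | a'
      · simp only [ballB] at h
        obtain ⟨i, hi⟩ := ih σ h
        refine ⟨i + 1, ?_⟩
        intro j a hji hj
        cases j with
        | zero => simp at hj
        | succ j => simpa using hi j a (by omega) (by simpa using hj)
      · simp only [ballB] at h
        by_cases hab : a' = b
        · simp only [hab, beq_self_eq_true, if_true] at h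
          obtain ⟨i, hi⟩ := ih σ h
          refine ⟨i + 1, ?_⟩
          intro j a hji hj
          cases j with
          | zero => simp at hj; simp [← hj, hab]
          | succ j => simpa using hi j a (by omega) (by simpa using hj)
        · have hne : (a' == b) = false := by simpa using hab
          simp only [hne] at h
          have h2 := exactB_imp p σ (by simpa using h)
          refine ⟨0, ?_⟩
          intro j a hji hj
          cases j with
          | zero => exact absurd rfl hji
          | succ j => simpa using h2 j a (by simpa using hj)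

/-- sign pattern of an integer vector -/
def patt (v : List ℤ) : List (Option Bool) :=
  v.map fun x => match x with
    | Int.ofNat 0 => none
    | Int.ofNat (_ + 1) => some true
    | Int.negSucc _ => some false

/-- sign pattern of the negative -/
def npatt (v : List ℤ) : List (Option Bool) :=
  v.map fun x => match x with
    | Int.ofNat 0 => none
    | Int.ofNat (_ + 1) => some false
    | Int.negSucc _ => some true

/-- union of the covered sets -/
def coverN : List (List ℤ) → ℕ
  | [] => 0
  | v :: l => Nat.lor (Nat.lor (ballN (patt v)) (ballN (npatt v))) (coverN l)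

theorem coverN_spec (l : List (List ℤ)) (i : ℕ) (h : (coverN l).testBit i = true) :
    ∃ v ∈ l, (ballN (patt v)).testBit i = true ∨ (ballN (npatt v)).testBit i = true := by
  induction l with
  | nil => simp [coverN] at h
  | cons v l ih =>
    simp only [coverN, testBit_lor', Bool.or_eq_true] at h
    rcases h with h | h
    · exact ⟨v, by simp, h⟩
    · obtain ⟨w, hw, hw'⟩ := ih h
      exact ⟨w, by simp [hw], hw'⟩

theorem cover_eq : coverN circs = 2 ^ 32768 - 1 := by decide +kernel

theorem circs_length : ∀ v ∈ circs, v.length = 15 := by decide +kernel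

theorem circs_dep : ∀ v ∈ circs, ∀ k : Fin 7,
    ∑ j : Fin 15, v.getD j 0 * (rows.getD j []).getD k 0 = 0 := by decide +kernel

theorem circs_ne : ∀ v ∈ circs, ∃ j : Fin 15, v.getD j 0 ≠ 0 := by decide +kernel

theorem rows_last : ∀ j : Fin 15, (rows.getD j []).getD 6 0 ≠ 0 := by decide +kernel

/-! ## Any seven rows are linearly independent -/

/-- eliminate the first coordinate using the pivot vector `v` -/
def elim (v u : List ℤ) : List ℤ :=
  List.zipWith (fun a b => v.headI * b - u.headI * a) v.tail u.tail

/-- inner loop of the check -/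
def gpAux (f : List (List ℤ) → Bool) : List (List ℤ) → Bool
  | [] => true
  | v :: l => (decide (v.headI ≠ 0)) && f (l.map (elim v)) && gpAux f l

/-- all `k`-subfamilies of a list of vectors of length `k` are linearly independent -/
def gp : ℕ → List (List ℤ) → Bool
  | 0 => fun _ => true
  | k + 1 => gpAux (gp k)

/-- linear combination, coordinate `j` -/
noncomputable def comb : List ℝ → List (List ℤ) → ℕ → ℝ
  | c :: cs, v :: l, j => c * (v.getD j 0 : ℝ) + comb cs l j
  | _, _, _ => 0

/-- number of nonzero coefficients -/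
noncomputable def nz : List ℝ → ℕ
  | [] => 0
  | c :: cs => (if c = 0 then 0 else 1) + nz cs

theorem nz_eq_zero (cs : List ℝ) (h : nz cs = 0) : ∀ c ∈ cs, c = 0 := by
  induction cs with
  | nil => simp
  | cons c cs ih =>
    simp only [nz] at h
    intro x hx
    rcases List.mem_cons.mp hx with rfl | hx
    · by_contra hne
      simp [hne] at h
    · exact ih (by omega) x hx

theorem elim_getD (k : ℕ) (v u : List ℤ) (hv : v.length = k + 1) (hu : u.length = k + 1) (j : ℕ) :
    (elim v u).getD j 0 = v.getD 0 0 * u.getD (j + 1) 0 - u.getD 0 0 * v.getD (j + 1) 0 := by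
  cases v with
  | nil => simp at hv
  | cons a v =>
    cases u with
    | nil => simp at hu
    | cons b u =>
      simp only [List.length_cons, Nat.add_right_cancel_iff] at hv hu
      simp only [elim, List.headI_cons, List.tail_cons, List.getD_cons_zero, List.getD_cons_succ]
      by_cases hj : j < k
      · rw [List.getD_eq_getElem _ _ (by simp [hv, hu, hj]), List.getD_eq_getElem _ _ (by omega),
          List.getD_eq_getElem _ _ (by omega)]
        simp
      · rw [List.getD_eq_default _ _ (by simp [hv, hu]; omega),
          List.getD_eq_default _ _ (by omega), List.getD_eq_default _ _ (by omega)]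
        simp

theorem comb_elim (k : ℕ) (v : List ℤ) (hv : v.length = k + 1) (cs : List ℝ) (l : List (List ℤ))
    (hl : ∀ u ∈ l, u.length = k + 1) (j : ℕ) :
    comb cs (l.map (elim v)) j =
      (v.getD 0 0 : ℝ) * comb cs l (j + 1) - (v.getD (j + 1) 0 : ℝ) * comb cs l 0 := by
  induction l generalizing cs with
  | nil => cases cs <;> simp [comb]
  | cons u l ih =>
    cases cs with
    | nil => simp [comb]
    | cons c cs =>
      have h1 := elim_getD k v u hv (hl u (by simp)) j
      have h2 := ih cs (fun w hw => hl w (by simp [hw]))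
      simp only [List.map_cons, comb, h2, h1]
      push_cast
      ring

theorem gp_spec (k : ℕ) : ∀ (l : List (List ℤ)), (∀ u ∈ l, u.length = k) → gp k l = true →
    ∀ cs : List ℝ, cs.length = l.length → nz cs ≤ k → (∀ j < k, comb cs l j = 0) →
      ∀ c ∈ cs, c = 0 := by
  induction k with
  | zero =>
    intro l _ _ cs _ hnz _
    exact nz_eq_zero cs (by omega)
  | succ k ihk =>
    intro l
    induction l with
    | nil =>
      intro _ _ cs hcs _ _ c hc
      simp only [List.length_nil, List.length_eq_zero_iff] at hcs
      simp [hcs] at hc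
    | cons v l ihl =>
      intro hlen hgp cs hcs hnz hcomb
      cases cs with
      | nil => simp
      | cons c cs =>
        have hgp' : ((decide (v.headI ≠ 0)) && gp k (l.map (elim v)) && gp (k + 1) l) = true := hgp
        simp only [Bool.and_eq_true, decide_eq_true_eq] at hgp'
        obtain ⟨⟨hv0, hg1⟩, hg2⟩ := hgp'
        have hvl : v.length = k + 1 := hlen v (by simp)
        have hll : ∀ u ∈ l, u.length = k + 1 := fun u hu => hlen u (by simp [hu])
        have hcs' : cs.length = l.length := by simpa using hcs
        by_cases hc0 : c = 0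
        · have h3 := ihl hll hg2 cs hcs' (by simp only [nz, hc0, if_true] at hnz; omega)
            (fun j hj => by have := hcomb j hj; simpa [comb, hc0] using this)
          intro x hx
          rcases List.mem_cons.mp hx with rfl | hx
          · exact hc0
          · exact h3 x hx
        · exfalso
          have hnz' : nz cs ≤ k := by
            simp only [nz, hc0, if_false] at hnz
            omega
          have h4 : ∀ j < k, comb cs (l.map (elim v)) j = 0 := by
            intro j hj
            rw [comb_elim k v hvl cs l hll j]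
            have e1 := hcomb (j + 1) (by omega)
            have e0 := hcomb 0 (by omega)
            simp only [comb] at e1 e0
            have e1' : comb cs l (j + 1) = -(c * (v.getD (j + 1) 0 : ℝ)) := by linarith
            have e0' : comb cs l 0 = -(c * (v.getD 0 0 : ℝ)) := by linarith
            rw [e1', e0']
            ring
          have hmaplen : ∀ u ∈ l.map (elim v), u.length = k := by
            intro u hu
            obtain ⟨w, hw, rfl⟩ := List.mem_map.mp hu
            have := hll w hw
            simp [elim, hvl, this]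
          have h5 := ihk (l.map (elim v)) hmaplen hg1 cs (by simpa using hcs') hnz' h4
          have h6 : comb cs l 0 = 0 := by
            clear ihl hlen hgp hcs hnz hcomb hg1 hg2 hll hcs' hnz' h4 hmaplen
            induction cs generalizing l with
            | nil => simp [comb]
            | cons d cs ih =>
              cases l with
              | nil => simp [comb]
              | cons u l =>
                simp only [comb]
                rw [h5 d (by simp), ih l (fun x hx => h5 x (by simp [hx]))]
                simp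
          have e0 := hcomb 0 (by omega)
          simp only [comb, h6, add_zero] at e0
          rcases mul_eq_zero.mp e0 with h | h
          · exact hc0 h
          · apply hv0
            cases v with
            | nil => simp at hvl
            | cons a v =>
              simpa using h

theorem gp_rows : gp 7 rows = true := by decide +kernel

theorem rows_length : ∀ u ∈ rows, u.length = 7 := by decide +kernel

theorem comb_ofFn (n : ℕ) (g : Fin n → ℝ) (B : Fin n → List ℤ) (k : ℕ) :
    comb (List.ofFn g) (List.ofFn B) k = ∑ j, g j * ((B j).getD k 0 : ℝ) := by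
  induction n with
  | zero => simp [comb]
  | succ n ih =>
    rw [List.ofFn_succ, List.ofFn_succ, Fin.sum_univ_succ]
    simp only [comb]
    rw [ih]

theorem nz_ofFn (n : ℕ) (g : Fin n → ℝ) :
    nz (List.ofFn g) = ∑ j, (if g j = 0 then 0 else 1) := by
  induction n with
  | zero => simp [nz]
  | succ n ih =>
    rw [List.ofFn_succ, Fin.sum_univ_succ]
    simp only [nz]
    rw [ih]

theorem rows_eq_ofFn : List.ofFn (fun j : Fin 15 => rows.getD j []) = rows := by decide +kernel

/-- Any linear relation among at most seven of the fifteen rows is trivial. -/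
theorem rows_indep (g : Fin 15 → ℝ) (hcard : (Finset.univ.filter fun j => g j ≠ 0).card ≤ 7)
    (h : ∀ k : Fin 7, ∑ j, g j * ((rows.getD j []).getD k 0 : ℝ) = 0) : ∀ j, g j = 0 := by
  have h1 := gp_spec 7 rows rows_length gp_rows (List.ofFn g) (by
      have : rows.length = 15 := by decide +kernel
      simp [this]) (by
      rw [nz_ofFn]
      refine le_trans (le_of_eq ?_) hcard
      rw [Finset.card_filter]
      apply Finset.sum_congr rfl
      intro j _
      by_cases hj : g j = 0 <;> simp [hj]) (by
      intro k hk
      have := h ⟨k, hk⟩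
      rw [← rows_eq_ofFn, comb_ofFn]
      exact this)
  intro j
  exact h1 (g j) (List.mem_ofFn.mpr ⟨j, rfl⟩)

/-! ## The fifteen points -/

/-- real entries of the table of rows -/
noncomputable def rowR (j : Fin 15) (k : Fin 7) : ℝ := ((rows.getD j []).getD k 0 : ℤ)

/-- the homogenising coordinate of row `j` -/
noncomputable def sc (j : Fin 15) : ℝ := rowR j (Fin.last 6)

/-- the fifteen points of `ℝ^6` -/
noncomputable def pt (j : Fin 15) : Fin 6 → ℝ := fun k => rowR j k.castSucc / sc j

theorem sc_ne (j : Fin 15) : sc j ≠ 0 := by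
  have := rows_last j
  unfold sc rowR
  exact_mod_cast this

/-- homogeneous coordinates `(x, 1)` -/
def lift (x : Fin 6 → ℝ) : Fin 7 → ℝ := Fin.snoc (α := fun _ => ℝ) x 1

@[simp] theorem lift_castSucc (x : Fin 6 → ℝ) (k : Fin 6) : lift x k.castSucc = x k := by
  simp [lift]

@[simp] theorem lift_last (x : Fin 6 → ℝ) : lift x (Fin.last 6) = 1 :=
  Fin.snoc_last (α := fun _ => ℝ) 1 x

@[simp] theorem lift_six (x : Fin 6 → ℝ) : lift x 6 = 1 := lift_last x

theorem sc_mul_lift (j : Fin 15) (k : Fin 7) : sc j * lift (pt j) k = rowR j k := by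
  refine Fin.lastCases ?_ (fun k => ?_) k
  · simp [sc]
  · have := sc_ne j
    simp only [lift_castSucc, pt]
    field_simp

theorem circ_sum {v : List ℤ} (hv : v ∈ circs) (k : Fin 7) :
    ∑ j : Fin 15, (v.getD j 0 : ℝ) * (sc j * lift (pt j) k) = 0 := by
  have h := circs_dep v hv k
  simp only [sc_mul_lift, rowR]
  exact_mod_cast h

theorem rowR_indep (g : Fin 15 → ℝ) (hcard : (Finset.univ.filter fun j => g j ≠ 0).card ≤ 7)
    (h : ∀ k : Fin 7, ∑ j, g j * rowR j k = 0) : ∀ j, g j = 0 :=
  rows_indep g hcard h

theorem pt_injective : Function.Injective pt := by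
  intro a b hab
  by_contra hne
  have key := rowR_indep (fun j => if j = a then (sc a)⁻¹ else if j = b then -(sc b)⁻¹ else 0)
    (by
      refine le_trans (Finset.card_le_card (t := {a, b}) ?_) (le_trans Finset.card_le_two (by norm_num))
      intro j hj
      simp only [Finset.mem_filter, Finset.mem_univ, true_and] at hj
      by_contra hjj
      simp only [Finset.mem_insert, Finset.mem_singleton, not_or] at hjj
      exact hj (by simp [hjj.1, hjj.2]))
    (by
      intro k
      have : ∀ j : Fin 15, (if j = a then (sc a)⁻¹ else if j = b then -(sc b)⁻¹ else 0) * rowR j k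
          = (if j = a then lift (pt a) k else 0) + (if j = b then - lift (pt b) k else 0) := by
        intro j
        have ha := sc_ne a
        have hb := sc_ne b
        by_cases h1 : j = a
        · subst h1
          have h2 : j ≠ b := hne
          simp only [if_true, h2, if_false, add_zero, ← sc_mul_lift]
          field_simp
        · by_cases h2 : j = b
          · subst h2
            simp only [h1, if_false, if_true, zero_add, ← sc_mul_lift]
            field_simp
          · simp [h1, h2]
      rw [Finset.sum_congr rfl (fun j _ => this j), Finset.sum_add_distrib]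
      simp [hab])
  have := key a
  simp only [if_true] at this
  exact sc_ne a (inv_eq_zero.mp this)

theorem getElem?_patt (v : List ℤ) (j : ℕ) (hj : j < v.length) :
    (0 < v.getD j 0 → (patt v)[j]? = some (some true) ∧ (npatt v)[j]? = some (some false)) ∧
    (v.getD j 0 < 0 → (patt v)[j]? = some (some false) ∧ (npatt v)[j]? = some (some true)) := by
  have e : v.getD j 0 = v[j] := List.getD_eq_getElem _ _ hj
  have e2 : v[j]? = some v[j] := List.getElem?_eq_getElem hj
  rw [e]
  simp only [patt, npatt, List.getElem?_map, e2, Option.map_some]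
  generalize v[j] = x
  constructor
  · intro hx
    match x, hx with
    | Int.ofNat (m + 1), _ => simp
  · intro hx
    match x, hx with
    | Int.negSucc m, _ => simp

/-- The covering property: every sign vector is matched, up to one exception, by one of the
dependencies or its negative. -/
theorem exists_circ (g : Fin 15 → ℝ) :
    ∃ v ∈ circs, ∃ ε : ℝ, ε ≠ 0 ∧ ∃ i : Fin 15, ∀ j : Fin 15, j ≠ i →
      0 ≤ ε * (v.getD j 0 : ℝ) * g j := by
  set σ : List Bool := List.ofFn (fun j : Fin 15 => decide (0 < g j)) with hσ
  have hlen : σ.length = 15 := by simp [hσ]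
  have hlt : idx σ < 32768 := by
    have := idx_lt σ
    rw [hlen] at this
    simpa using this
  have hbit : (coverN circs).testBit (idx σ) = true := by
    rw [cover_eq, Nat.testBit_two_pow_sub_one]
    simpa using hlt
  obtain ⟨v, hv, hor⟩ := coverN_spec circs (idx σ) hbit
  have hvl : v.length = 15 := circs_length v hv
  have hσj : ∀ j : Fin 15, σ[(j : ℕ)]? = some (decide (0 < g j)) := by
    intro j
    rw [hσ, List.getElem?_ofFn]
    simp
  refine ⟨v, hv, ?_⟩
  have fin_of : ∀ i : ℕ, ∀ P : Fin 15 → Prop, (∀ j : Fin 15, (j : ℕ) ≠ i → P j) →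
      ∃ i' : Fin 15, ∀ j : Fin 15, j ≠ i' → P j := by
    intro i P hP
    by_cases hi : i < 15
    · exact ⟨⟨i, hi⟩, fun j hj => hP j (fun h => hj (Fin.ext h))⟩
    · exact ⟨0, fun j _ => hP j (fun h => hi (h ▸ j.2))⟩
  rcases hor with h | h
  · rw [ballN_spec (patt v) σ (by simp [patt, hvl, hlen])] at h
    obtain ⟨i, hi⟩ := ballB_imp _ _ h
    refine ⟨1, one_ne_zero, fin_of i _ ?_⟩
    intro j hj
    have hp := getElem?_patt v j (by rw [hvl]; exact j.2)
    rcases lt_trichotomy (v.getD j 0) 0 with h1 | h1 | h1
    · have h2 := hi j false hj (hp.2 h1).1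
      rw [hσj] at h2
      have h3 : ¬ 0 < g j := by simpa using h2
      have h1' : (v.getD j 0 : ℝ) < 0 := by exact_mod_cast h1
      nlinarith [mul_nonneg (le_of_lt (neg_pos.mpr h1')) (neg_nonneg.mpr (not_lt.mp h3))]
    · rw [h1]; simp
    · have h2 := hi j true hj (hp.1 h1).1
      rw [hσj] at h2
      have h3 : 0 < g j := by simpa using h2
      have h1' : (0 : ℝ) < (v.getD j 0 : ℝ) := by exact_mod_cast h1
      nlinarith [mul_pos h1' h3]
  · rw [ballN_spec (npatt v) σ (by simp [npatt, hvl, hlen])] at h
    obtain ⟨i, hi⟩ := ballB_imp _ _ h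
    refine ⟨-1, by norm_num, fin_of i _ ?_⟩
    intro j hj
    have hp := getElem?_patt v j (by rw [hvl]; exact j.2)
    rcases lt_trichotomy (v.getD j 0) 0 with h1 | h1 | h1
    · have h2 := hi j true hj (hp.2 h1).2
      rw [hσj] at h2
      have h3 : 0 < g j := by simpa using h2
      have h1' : (v.getD j 0 : ℝ) < 0 := by exact_mod_cast h1
      nlinarith [mul_pos (neg_pos.mpr h1') h3]
    · rw [h1]; simp
    · have h2 := hi j false hj (hp.1 h1).2
      rw [hσj] at h2
      have h3 : ¬ 0 < g j := by simpa using h2
      have h1' : (0 : ℝ) < (v.getD j 0 : ℝ) := by exact_mod_cast h1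
      nlinarith [mul_nonneg (le_of_lt h1') (neg_nonneg.mpr (not_lt.mp h3))]

/-! ## No projective image of the points is in convex position -/

theorem projMap_injective {d : ℕ} {A : Matrix (Fin d) (Fin d) ℝ} {b c : Fin d → ℝ} {δ : ℝ}
    (hdet : (projMatrix A b c δ).det ≠ 0) {x y : Fin d → ℝ} (hx : c ⬝ᵥ x + δ ≠ 0)
    (hy : c ⬝ᵥ y + δ ≠ 0) (hxy : projMap A b c δ x = projMap A b c δ y) : x = y := by
  set p : ℝ := (c ⬝ᵥ x + δ)⁻¹ with hp
  set q : ℝ := (c ⬝ᵥ y + δ)⁻¹ with hq
  have hp0 : p ≠ 0 := inv_ne_zero hx
  set z : Fin d ⊕ Unit → ℝ := Sum.elim (p • x - q • y) (fun _ => p - q) with hz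
  have hmul : (projMatrix A b c δ).mulVec z = 0 := by
    unfold projMatrix
    rw [Matrix.fromBlocks_mulVec]
    have e1 : z ∘ Sum.inl = p • x - q • y := by ext; simp [hz]
    have e2 : z ∘ Sum.inr = fun _ => p - q := by ext; simp [hz]
    rw [e1, e2]
    have h1 : A.mulVec (p • x - q • y) + (Matrix.of fun (i : Fin d) (_ : Unit) => b i).mulVec
        (fun _ => p - q) = 0 := by
      have : p • (A.mulVec x + b) = q • (A.mulVec y + b) := hxy
      ext i
      have h := congrFun this i
      simp only [Pi.smul_apply, Pi.add_apply, smul_eq_mul] at h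
      simp only [Matrix.mulVec_sub, Matrix.mulVec_smul, Pi.add_apply, Pi.sub_apply, Pi.smul_apply,
        smul_eq_mul, Pi.zero_apply]
      simp only [Matrix.mulVec, dotProduct, Matrix.of_apply, Finset.univ_unique,
        Finset.sum_singleton] at h ⊢
      linarith
    have h2 : (Matrix.of fun (_ : Unit) (j : Fin d) => c j).mulVec (p • x - q • y) +
        (Matrix.of fun (_ : Unit) (_ : Unit) => δ).mulVec (fun _ => p - q) = 0 := by
      have hx' : p * (c ⬝ᵥ x + δ) = 1 := inv_mul_cancel₀ hx
      have hy' : q * (c ⬝ᵥ y + δ) = 1 := inv_mul_cancel₀ hy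
      ext i
      simp only [Matrix.mulVec_sub, Matrix.mulVec_smul, Pi.add_apply, Pi.sub_apply, Pi.smul_apply,
        smul_eq_mul, Pi.zero_apply]
      simp only [Matrix.mulVec, dotProduct, Matrix.of_apply, Finset.univ_unique,
        Finset.sum_singleton] at hx' hy' ⊢
      linarith
    rw [h1, h2]
    ext i
    cases i <;> simp
  have hz0 := Matrix.eq_zero_of_mulVec_eq_zero hdet hmul
  have hpq : p = q := by
    have := congrFun hz0 (Sum.inr ())
    simp only [hz, Sum.elim_inr, Pi.zero_apply] at this
    linarith
  ext i
  have := congrFun hz0 (Sum.inl i)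
  simp only [hz, Sum.elim_inl, Pi.sub_apply, Pi.smul_apply, smul_eq_mul, Pi.zero_apply, ← hpq]
    at this
  have h3 : p * (x i - y i) = 0 := by linarith
  rcases mul_eq_zero.mp h3 with h | h
  · exact absurd h hp0
  · linarith

theorem not_mapsToVertices (S : Finset (Fin 6 → ℝ)) (hS : ∀ j, pt j ∈ S) :
    ¬ MapsToVertices S := by
  rintro ⟨A, b, c, δ, hdet, hperm, hext⟩
  set T := projMap A b c δ with hT
  have hh : ∀ j, c ⬝ᵥ pt j + δ ≠ 0 := fun j => hperm _ (hS j)
  obtain ⟨v, hv, ε, hε, i, hi⟩ := exists_circ (fun j => sc j * (c ⬝ᵥ pt j + δ))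
  set w : Fin 15 → ℝ := fun j => ε * (v.getD j 0 : ℝ) * (sc j * (c ⬝ᵥ pt j + δ)) with hw
  -- coordinatewise relations
  have rel : ∀ k : Fin 6, ∑ j : Fin 15, (v.getD j 0 : ℝ) * sc j * pt j k = 0 := by
    intro k
    have := circ_sum hv k.castSucc
    simpa [mul_assoc] using this
  have rel1 : ∑ j : Fin 15, (v.getD j 0 : ℝ) * sc j = 0 := by
    have := circ_sum hv (Fin.last 6)
    simpa using this
  have hsum : ∑ j, w j = 0 := by
    have e : ∀ j, w j = ε * (∑ k, c k * ((v.getD j 0 : ℝ) * sc j * pt j k)) +
        ε * δ * ((v.getD j 0 : ℝ) * sc j) := by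
      intro j
      simp only [hw, dotProduct]
      have : ∑ k, c k * ((v.getD j 0 : ℝ) * sc j * pt j k)
          = (v.getD j 0 : ℝ) * sc j * ∑ k, c k * pt j k := by
        rw [Finset.mul_sum]
        exact Finset.sum_congr rfl (fun k _ => by ring)
      rw [this]
      ring
    rw [Finset.sum_congr rfl (fun j _ => e j), Finset.sum_add_distrib, ← Finset.mul_sum,
      ← Finset.mul_sum, rel1, Finset.sum_comm]
    have : ∀ k, ∑ j : Fin 15, c k * ((v.getD j 0 : ℝ) * sc j * pt j k) = 0 := by
      intro k
      rw [← Finset.mul_sum, rel k, mul_zero]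
    rw [Finset.sum_eq_zero (fun k _ => this k), mul_zero, mul_zero, add_zero]
  have hvec : ∀ k, ∑ j, w j * T (pt j) k = 0 := by
    intro k
    have e : ∀ j, w j * T (pt j) k = ε * (∑ l, A k l * ((v.getD j 0 : ℝ) * sc j * pt j l)) +
        ε * b k * ((v.getD j 0 : ℝ) * sc j) := by
      intro j
      have h0 := hh j
      simp only [hw, hT, projMap, Pi.smul_apply, Pi.add_apply, smul_eq_mul]
      have : ∑ l, A k l * ((v.getD j 0 : ℝ) * sc j * pt j l)
          = (v.getD j 0 : ℝ) * sc j * A.mulVec (pt j) k := by
        simp only [Matrix.mulVec, dotProduct]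
        rw [Finset.mul_sum]
        exact Finset.sum_congr rfl (fun k _ => by ring)
      rw [this]
      field_simp
    rw [Finset.sum_congr rfl (fun j _ => e j), Finset.sum_add_distrib, ← Finset.mul_sum,
      ← Finset.mul_sum, rel1, Finset.sum_comm]
    have : ∀ l, ∑ j : Fin 15, A k l * ((v.getD j 0 : ℝ) * sc j * pt j l) = 0 := by
      intro l
      rw [← Finset.mul_sum, rel l, mul_zero]
    rw [Finset.sum_eq_zero (fun k _ => this k), mul_zero, mul_zero, add_zero]
  -- the total weight of the other points is positive
  set R : Finset (Fin 15) := Finset.univ.erase i with hR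
  have hwn : ∀ j ∈ R, 0 ≤ w j := fun j hj => hi j (Finset.ne_of_mem_erase hj)
  have hsplit : w i + ∑ j ∈ R, w j = 0 := by
    rw [hR, Finset.add_sum_erase _ _ (Finset.mem_univ i)]
    exact hsum
  have hWpos : 0 < ∑ j ∈ R, w j := by
    rcases (Finset.sum_nonneg hwn).lt_or_eq with h | h
    · exact h
    · exfalso
      have hall : ∀ j, w j = 0 := by
        intro j
        by_cases hj : j = i
        · rw [hj]
          linarith
        · exact (Finset.sum_eq_zero_iff_of_nonneg hwn).mp h.symm j
            (Finset.mem_erase.mpr ⟨hj, Finset.mem_univ j⟩)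
      obtain ⟨j, hj⟩ := circs_ne v hv
      have hj' : (v.getD j 0 : ℝ) ≠ 0 := by exact_mod_cast hj
      exact (mul_ne_zero (mul_ne_zero hε hj') (mul_ne_zero (sc_ne j) (hh j))) (hall j)
  set W : ℝ := ∑ j ∈ R, w j with hW
  -- `T (pt i)` is a convex combination of the others
  have hcomb : T (pt i) = ∑ j ∈ R, (w j / W) • T (pt j) := by
    ext k
    have h1 := hvec k
    rw [← Finset.add_sum_erase _ _ (Finset.mem_univ i)] at h1
    have hwi : w i = -W := by linarith
    rw [Finset.sum_apply]
    simp only [Pi.smul_apply, smul_eq_mul]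
    have h2 : ∑ j ∈ R, w j / W * T (pt j) k = (∑ j ∈ R, w j * T (pt j) k) / W := by
      rw [Finset.sum_div]
      exact Finset.sum_congr rfl (fun j _ => by ring)
    rw [h2, eq_div_iff hWpos.ne']
    rw [hwi] at h1
    linarith
  set Y : Set (Fin 6 → ℝ) := T '' (S : Set (Fin 6 → ℝ)) with hY
  set Y' : Set (Fin 6 → ℝ) := (fun j => T (pt j)) '' (R : Set (Fin 15)) with hY'
  have hsub : Y' ⊆ Y := by
    rintro _ ⟨j, _, rfl⟩
    exact ⟨pt j, hS j, rfl⟩
  have hmem : T (pt i) ∈ convexHull ℝ Y' := by
    rw [hcomb]
    refine (convex_convexHull ℝ Y').sum_mem (fun j hj => div_nonneg (hwn j hj) hWpos.le) ?_ ?_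
    · rw [← Finset.sum_div]
      exact div_self hWpos.ne'
    · intro j hj
      exact subset_convexHull ℝ Y' ⟨j, hj, rfl⟩
  have hex : T (pt i) ∈ (convexHull ℝ Y').extremePoints ℝ :=
    inter_extremePoints_subset_extremePoints_of_subset (convexHull_mono hsub)
      ⟨hmem, hext _ (hS i)⟩
  obtain ⟨j, hj, hji⟩ := extremePoints_convexHull_subset hex
  have := pt_injective (projMap_injective hdet (hh j) (hh i) hji)
  exact (Finset.ne_of_mem_erase (Finset.mem_coe.mp hj)) this

/-! ## General position -/

/-- the homogeneous coordinates of any seven points of `S` are linearly independent -/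
def LI (S : Finset (Fin 6 → ℝ)) : Prop :=
  ∀ F ⊆ S, F.card = 7 → LinearIndepOn ℝ lift (F : Set (Fin 6 → ℝ))

theorem LI.generalPosition {S : Finset (Fin 6 → ℝ)} (h : LI S) : GeneralPosition S := by
  intro F hF hcard
  rintro ⟨u, t, hu, hut⟩
  have hli : LinearIndependent ℝ (fun x : F => lift (x : Fin 6 → ℝ)) := h F hF hcard
  have hspan := hli.span_eq_top_of_card_eq_finrank' (by simp [hcard])
  let φ : (Fin 7 → ℝ) →ₗ[ℝ] ℝ :=
    (∑ k : Fin 6, u k • LinearMap.proj (k.castSucc)) - t • LinearMap.proj (Fin.last 6)
  have hφ : ∀ y, φ y = (∑ k : Fin 6, u k * y k.castSucc) - t * y (Fin.last 6) := by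
    intro y
    simp [φ]
  have hker : Submodule.span ℝ (Set.range fun x : F => lift (x : Fin 6 → ℝ)) ≤ LinearMap.ker φ := by
    rw [Submodule.span_le]
    rintro _ ⟨x, rfl⟩
    have hx := hut x x.2
    simp only [SetLike.mem_coe, LinearMap.mem_ker, hφ, lift_castSucc, lift_last, mul_one]
    simp only [dotProduct] at hx
    linarith
  rw [hspan] at hker
  apply hu
  ext k
  have hk : φ (Pi.single k.castSucc 1) = 0 := by
    have : (Pi.single k.castSucc 1 : Fin 7 → ℝ) ∈ LinearMap.ker φ := hker Submodule.mem_top
    exact this
  rw [hφ] at hk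
  have h1 : (Pi.single k.castSucc (1 : ℝ) : Fin 7 → ℝ) (Fin.last 6) = 0 := by
    rw [Pi.single_apply, if_neg (Fin.castSucc_lt_last k).ne']
  have h2 : ∀ l : Fin 6, (Pi.single k.castSucc (1 : ℝ) : Fin 7 → ℝ) l.castSucc =
      if l = k then 1 else 0 := by
    intro l
    rw [Pi.single_apply]
    simp only [Fin.castSucc_inj]
  simp only [h1, h2, mul_zero, sub_zero, mul_ite, mul_one, Finset.sum_ite_eq', Finset.mem_univ,
    if_true] at hk
  exact hk

theorem LI_base : LI (Finset.univ.image pt) := by
  intro F hF hcard
  rw [linearIndepOn_finset_iff]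
  intro f hf
  have key := rowR_indep (fun j => if pt j ∈ F then f (pt j) / sc j else 0) (by
      refine le_trans (Finset.card_le_card_of_injOn pt (t := F) ?_ pt_injective.injOn) hcard.le
      intro j hj
      simp only [Finset.coe_filter, Finset.mem_univ, true_and, Set.mem_ofPred_eq] at hj
      by_contra hjj
      exact hj (by rw [if_neg (by simpa using hjj)]))
    (by
      intro k
      have e : ∀ j : Fin 15, (if pt j ∈ F then f (pt j) / sc j else 0) * rowR j k =
          if pt j ∈ F then f (pt j) * lift (pt j) k else 0 := by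
        intro j
        have := sc_ne j
        split_ifs
        · rw [← sc_mul_lift]
          field_simp
        · simp
      rw [Finset.sum_congr rfl (fun j _ => e j), ← Finset.sum_filter]
      have himg : (Finset.univ.filter fun j => pt j ∈ F).image pt = F := by
        ext x
        simp only [Finset.mem_image, Finset.mem_filter, Finset.mem_univ, true_and]
        constructor
        · rintro ⟨j, hj, rfl⟩
          exact hj
        · intro hx
          obtain ⟨j, _, rfl⟩ := Finset.mem_image.mp (hF hx)
          exact ⟨j, hx, rfl⟩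
      have h1 : ∑ x ∈ F, f x * lift x k = 0 := by
        have := congrFun hf k
        simpa [Finset.sum_apply] using this
      rw [← himg, Finset.sum_image (fun a _ b _ h => pt_injective h)] at h1
      exact h1)
  intro x hx
  obtain ⟨j, _, rfl⟩ := Finset.mem_image.mp (hF hx)
  have hj := key j
  simp only [hx, if_true] at hj
  exact (div_eq_zero_iff.mp hj).resolve_right (sc_ne j)

theorem exists_extension (S : Finset (Fin 6 → ℝ)) (hS : LI S) (hc : 7 ≤ S.card) :
    ∃ x, x ∉ S ∧ LI (insert x S) := by
  classical
  let W0 : Submodule ℝ (Fin 7 → ℝ) := LinearMap.ker (LinearMap.proj (Fin.last 6))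
  let 𝒲 : Finset (Submodule ℝ (Fin 7 → ℝ)) :=
    insert W0 ((S.powersetCard 6).image (fun F : Finset (Fin 6 → ℝ) =>
      Submodule.span ℝ (lift '' (F : Set (Fin 6 → ℝ)))))
  have htop : (⊤ : Submodule ℝ (Fin 7 → ℝ)) ∉ 𝒲 := by
    intro h
    rcases Finset.mem_insert.mp h with h | h
    · have : (Pi.single (Fin.last 6) 1 : Fin 7 → ℝ) ∈ W0 := h ▸ Submodule.mem_top
      simp [W0] at this
    · obtain ⟨F, hF, hFt⟩ := Finset.mem_image.mp h
      rw [Finset.mem_powersetCard] at hF
      have h1 : Module.finrank ℝ (Submodule.span ℝ (lift '' (F : Set (Fin 6 → ℝ)))) ≤ 6 := by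
        have h2 := finrank_span_finset_le_card (R := ℝ) (F.image lift)
        rw [Finset.coe_image] at h2
        exact h2.trans (Finset.card_image_le.trans hF.2.le)
      rw [hFt] at h1
      simp at h1
  have hne := Subspace.biUnion_ne_univ_of_top_notMem htop
  obtain ⟨v, hv⟩ := (Set.ne_univ_iff_exists_notMem _).mp hne
  have hv' : ∀ p ∈ 𝒲, v ∉ p := by
    intro p hp hvp
    exact hv (Set.mem_biUnion hp hvp)
  have hv0 : v (Fin.last 6) ≠ 0 := by
    have := hv' W0 (Finset.mem_insert_self _ _)
    simpa [W0] using this
  let x : Fin 6 → ℝ := fun k => v k.castSucc / v (Fin.last 6)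
  have hlx : v (Fin.last 6) • lift x = v := by
    ext k
    refine Fin.lastCases ?_ (fun k => ?_) k
    · simp
    · simp only [Pi.smul_apply, lift_castSucc, smul_eq_mul, x]
      field_simp
  have hnot : ∀ F ⊆ S, F.card = 6 → lift x ∉ Submodule.span ℝ (lift '' (F : Set _)) := by
    intro F hF hFc hmem
    refine hv' _ (Finset.mem_insert_of_mem (Finset.mem_image.mpr
      ⟨F, Finset.mem_powersetCard.mpr ⟨hF, hFc⟩, rfl⟩)) ?_
    rw [← hlx]
    exact Submodule.smul_mem _ _ hmem
  have hxS : x ∉ S := by
    intro hx
    obtain ⟨F, h1, h2, h3⟩ := Finset.exists_subsuperset_card_eq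
      (Finset.singleton_subset_iff.mpr hx) (by simp : ({x} : Finset _).card ≤ 6) (by omega)
    exact hnot F h2 h3 (Submodule.subset_span ⟨x, h1 (Finset.mem_singleton_self x), rfl⟩)
  refine ⟨x, hxS, ?_⟩
  intro F hF hFc
  by_cases hxF : x ∈ F
  · have hsub : F.erase x ⊆ S := by
      intro y hy
      have h1 := hF (Finset.mem_of_mem_erase hy)
      rcases Finset.mem_insert.mp h1 with h | h
      · exact absurd h (Finset.ne_of_mem_erase hy)
      · exact h
    have hcard : (F.erase x).card = 6 := by
      rw [Finset.card_erase_of_mem hxF, hFc]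
    obtain ⟨G, h1, h2, h3⟩ := Finset.exists_subsuperset_card_eq hsub (by omega : _ ≤ 7) hc
    have hli : LinearIndepOn ℝ lift ((F.erase x : Finset _) : Set (Fin 6 → ℝ)) :=
      (hS G h2 h3).mono (by exact_mod_cast h1)
    have h4 := hli.insert (hnot _ hsub hcard)
    have h5 : insert x ((F.erase x : Finset _) : Set (Fin 6 → ℝ)) = (F : Set _) := by
      rw [← Finset.coe_insert, Finset.insert_erase hxF]
    rwa [h5] at h4
  · refine hS F ?_ hFc
    intro y hy
    rcases Finset.mem_insert.mp (hF hy) with h | h
    · exact absurd (h ▸ hy) hxF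
    · exact h

/-- **Main result.** For every `n ≥ 15` there is a set of `n` points in general position in `ℝ^6`
which cannot be mapped onto the vertices of a convex polytope by a permissible projective
transformation; that is, `ν(6) ≤ 14`. -/
theorem result : ∀ n : ℕ, 15 ≤ n →
    ∃ S : Finset (Fin 6 → ℝ), S.card = n ∧ GeneralPosition S ∧ ¬ MapsToVertices S := by
  classical
  have key : ∀ n : ℕ, 15 ≤ n →
      ∃ S : Finset (Fin 6 → ℝ), S.card = n ∧ LI S ∧ ∀ j, pt j ∈ S := by
    intro n hn
    induction n, hn using Nat.le_induction with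
    | base =>
      refine ⟨Finset.univ.image pt, ?_, LI_base, fun j => Finset.mem_image_of_mem _ (Finset.mem_univ j)⟩
      rw [Finset.card_image_of_injective _ pt_injective]
      simp
    | succ n hn ih =>
      obtain ⟨S, hc, hli, hpt⟩ := ih
      obtain ⟨x, hx, hli'⟩ := exists_extension S hli (by omega)
      exact ⟨insert x S, by rw [Finset.card_insert_of_notMem hx, hc], hli',
        fun j => Finset.mem_insert_of_mem (hpt j)⟩
  intro n hn
  obtain ⟨S, hc, hli, hpt⟩ := key n hn
  exact ⟨S, hc, hli.generalPosition, not_mapsToVertices S hpt⟩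

end Pool.Agent.Results.MP_1e71f9_co.NuSixLeFourteen
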